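import Mathlib
import Pool.Agent.H436R3.Fol.Defs

/-!
# Generalized pairs and log terminal models on projective varieties

Let `K` be a finitely generated field over `ℂ`. All varieties are normal and projective with
function field `K`. A divisorial valuation of `K` is a `DVal K`; divisors are treated as
b-divisors, that is, as real valued functions on the set of valuations of `K`.
-/

set_option autoImplicit false

namespace Pool.Agent.TH202

open Pool.Agent.H436R3.Fol

/-- A normal projective variety with function field `K`. The nonzero elements `ξ_0, ..., ξ_n` of `K`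
are the homogeneous coordinates of a rational map to `P^n`; the variety is the normalization in `K`
of the closure of the image (the field `K` is algebraic over the function field of the image).
Every normal projective variety with function field `K` is of this form. -/
structure Model (K : Type) [Field K] [Algebra ℂ K] where
  n : ℕ
  ξ : Fin (n + 1) → K
  ne : ∀ j, ξ j ≠ 0
  alg : ∀ i, ∀ f : K, IsAlgebraic (Algebra.adjoin ℂ (Set.range fun j => ξ j / ξ i)) f

variable {K : Type} [Field K] [Algebra ℂ K]

/-- The subalgebra generated by the coordinates `ξ_j / ξ_i`. -/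
def Model.A (X : Model K) (i : Fin (X.n + 1)) : Subalgebra ℂ K :=
  Algebra.adjoin ℂ (Set.range fun j => X.ξ j / X.ξ i)

/-- The coordinate ring of the `i`-th affine chart of `X`: the integral closure in `K` of the ring
generated by the `ξ_j / ξ_i`. -/
def Model.R (X : Model K) (i : Fin (X.n + 1)) : Subalgebra ℂ K :=
  (integralClosure (X.A i) K).restrictScalars ℂ

/-- A point of `X` (in the sense of schemes): a prime ideal of the coordinate ring of a chart. -/
structure Pt (X : Model K) where
  i : Fin (X.n + 1)
  p : Ideal (X.R i)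
  prime : p.IsPrime

/-- The element `f` of `K` lies in the local ring `O_{X,x}`. -/
def Pt.Mem {X : Model K} (x : Pt X) (f : K) : Prop :=
  ∃ s : X.R x.i, s ∉ x.p ∧ (s : K) * f ∈ X.R x.i

/-- The centre of the valuation `v` on `X` contains the point `x`: `O_{X,x} ⊆ O_v`. -/
def Pt.Thr {X : Model K} (x : Pt X) (v : DVal K) : Prop := ∀ f, x.Mem f → v.Reg f

/-- `v` is the valuation of a prime divisor on `X`. -/
def IsPrimeOn (X : Model K) (v : DVal K) : Prop := ∃ i, IsLocalRing' (X.R i) v

/-- The valuations are equal (the value at `0` is meaningless). -/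
def Same (v w : DVal K) : Prop := ∀ f : K, f ≠ 0 → v.ord f = w.ord f

/-- The principal b-divisor of the rational function `g`. -/
def dv (g : K) : DVal K → ℝ := fun v => (v.ord g : ℝ)

variable (K) in
/-- The real vector space of `ℝ`-principal b-divisors. -/
def Prin : Submodule ℝ (DVal K → ℝ) := Submodule.span ℝ {P | ∃ g : K, g ≠ 0 ∧ P = dv g}

/-- The function `D` is the b-divisor of the pull-backs of an `ℝ`-Cartier divisor on `X`: near every
point of `X` it is a real linear combination of principal divisors. -/
def IsRCar (X : Model K) (D : DVal K → ℝ) : Prop :=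
  ∀ x : Pt X, ∃ P ∈ Prin K, ∀ v, x.Thr v → D v = P v

/-- The b-divisor of the mobile part of the linear system spanned by the rational functions
`f_0, ..., f_m`. -/
noncomputable def Lin {m : ℕ} (f : Fin (m + 1) → K) : DVal K → ℝ :=
  fun v => Finset.univ.sup' Finset.univ_nonempty fun j => -(v.ord (f j) : ℝ)

/-- The linear system spanned by `f_0, ..., f_m` is base point free on `X`: near every point `x`, one
of the `f_k` divides all others. -/
def IsFree (X : Model K) {m : ℕ} (f : Fin (m + 1) → K) : Prop :=
  (∀ j, f j ≠ 0) ∧ ∀ x : Pt X, ∃ k, ∀ j, x.Mem (f j / f k)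

/-- The ample divisor on `X` given by the homogeneous coordinates. -/
noncomputable def Model.H (X : Model K) : DVal K → ℝ := Lin X.ξ

/-- Finite sums, with nonnegative real coefficients, of base point free Cartier divisors on `X`. -/
def SFree (X : Model K) : Submodule NNReal (DVal K → ℝ) :=
  Submodule.span NNReal {L | ∃ (m : ℕ) (f : Fin (m + 1) → K), IsFree X f ∧ L = Lin f}

/-- The `ℝ`-Cartier divisor `D` on `X` is nef: for all `δ > 0`, the divisor `D + δ H`, `H` ample, is
`ℝ`-linearly equivalent to a nonnegative combination of base point free Cartier divisors. -/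
def IsNef (X : Model K) (D : DVal K → ℝ) : Prop :=
  IsRCar X D ∧ ∀ δ : ℝ, 0 < δ → ∃ F ∈ SFree X, ∃ P ∈ Prin K, ∀ v, D v + δ * X.H v = F v + P v

/-- The `ℝ`-Cartier divisor `D` on `X` is pseudo-effective: for all `δ > 0`, the divisor `D + δ H`,
`H` ample, is `ℝ`-linearly equivalent to an effective divisor. -/
def IsPsef (X : Model K) (D : DVal K → ℝ) : Prop :=
  ∀ δ : ℝ, 0 < δ → ∃ P ∈ Prin K, ∀ w, IsPrimeOn X w → 0 ≤ D w + δ * X.H w + P w

variable {d : ℕ}

/-- `D` is the b-divisor of the pull-backs of the divisor `K_X + B + β_X`, which is `ℝ`-Cartier. The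
canonical divisor is given by a basis `T` of the rational vector fields. -/
def IsAdjoint (T : Foliation K d) (X : Model K) (B β D : DVal K → ℝ) : Prop :=
  IsRCar X D ∧ ∀ w, IsPrimeOn X w → ∀ n : ℤ, IsCanOrd T w n → D w = n + B w + β w

/-- `(X, B + β)` is a gklt generalized pair: `B` is an effective `ℝ`-divisor on `X`, the b-divisor
`β` descends to a nef `ℝ`-Cartier divisor on some model, `K_X + B + β_X` is `ℝ`-Cartier (`D` is the
b-divisor of its pull-backs) and all log discrepancies `1 + K(v) + β(v) - D(v)` of divisors `v` over
`X` are positive. -/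
def IsGklt (T : Foliation K d) (X : Model K) (B β D : DVal K → ℝ) : Prop :=
  (∀ w, IsPrimeOn X w → 0 ≤ B w) ∧
  (∃ Z : Set (DVal K), Z.Finite ∧ ∀ w, IsPrimeOn X w → B w ≠ 0 → ∃ z ∈ Z, Same w z) ∧
  (∃ X' : Model K, IsNef X' β) ∧ IsAdjoint T X B β D ∧
  ∀ v : DVal K, (∃ S : Subalgebra ℂ K, S.FG ∧ IsLocalRing' S v) →
    ∀ n : ℤ, IsCanOrd T v n → 0 < 1 + n + β v - D v

/-- The conditions of a log terminal model `Y` of `(X, B + β)`, except for the conditions on the
singularities of `Y`: the birational map `X ⇢ Y` does not extract divisors, `K_Y + B + β_Y` is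
`ℝ`-Cartier (with b-divisor `E`) and nef, and the log discrepancies of the contracted prime divisors
increase. -/
def IsWeakLTModel (T : Foliation K d) (X : Model K) (B β D : DVal K → ℝ) (Y : Model K)
    (E : DVal K → ℝ) : Prop :=
  (∀ w, IsPrimeOn Y w → IsPrimeOn X w) ∧ IsAdjoint T Y B β E ∧ IsNef Y E ∧
  ∀ w, IsPrimeOn X w → ¬ IsPrimeOn Y w → E w < D w

end Pool.Agent.TH202
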