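import Mathlib
import Pool.Agent.TH202.Defs
import Pool.Agent.H436R3.Fol.LogDer

/-!
# Basic facts on models
-/

set_option autoImplicit false

namespace Pool.Agent.TH202

open Pool.Agent.H436R3.Fol

section vs

variable {K : Type} [Field K] [Algebra ℂ K]

/-- The valuation subring of a discrete valuation. -/
def VS (v : DVal K) : ValuationSubring K where
  toSubring := v.O
  mem_or_inv_mem' := by
    intro f
    change v.Reg f ∨ v.Reg f⁻¹
    by_cases hf : f = 0
    · left; left; exact hf
    · rcases le_total 0 (v.ord f) with h | h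
      · left; right; exact h
      · right; right
        rw [v.ord_inv hf]
        omega

theorem mem_VS {v : DVal K} {f : K} : f ∈ VS v ↔ v.Reg f := Iff.rfl

/-- Roots of monic polynomials with coefficients in a valuation ring lie in the ring. -/
theorem mem_of_root {L : Type} [Field L] (V : ValuationSubring L) (p : Polynomial L)
    (hp : p.Monic) (h : ∀ i, p.coeff i ∈ V) {u : L} (hu : p.eval u = 0) : u ∈ V := by
  have hs : (p.coeffs : Set L) ⊆ V.toSubring := by
    intro x hx
    rw [Finset.mem_coe, Polynomial.mem_coeffs_iff] at hx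
    obtain ⟨i, _, rfl⟩ := hx
    exact h i
  have hint : IsIntegral V.toSubring u := by
    refine ⟨p.toSubring V.toSubring hs, (Polynomial.monic_toSubring p _ hs).2 hp, ?_⟩
    have h1 : (p.toSubring V.toSubring hs).map (algebraMap V.toSubring L) = p := by
      ext i
      rw [Polynomial.coeff_map]
      exact Polynomial.coeff_toSubring _ _ _
    rw [← Polynomial.eval_map, h1]
    exact hu
  have hint' : IsIntegral V u := hint
  obtain ⟨y, hy⟩ := (IsIntegrallyClosed.isIntegral_iff (R := V) (K := L)).1 hint'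
  rw [← hy]
  exact y.2

theorem reg_of_root (v : DVal K) (p : Polynomial K) (hp : p.Monic)
    (h : ∀ i, v.Reg (p.coeff i)) {u : K} (hu : p.eval u = 0) : v.Reg u :=
  mem_of_root (VS v) p hp h hu

/-- Elements integral over a subring of a valuation ring lie in the valuation ring. -/
theorem mem_of_isIntegral {L : Type} [Field L] (V : ValuationSubring L) {S : Type} [CommRing S]
    [Algebra S L] (h : ∀ s : S, algebraMap S L s ∈ V) {f : L} (hf : IsIntegral S f) : f ∈ V := by
  obtain ⟨p, hp, h0⟩ := hf
  refine mem_of_root V (p.map (algebraMap S L)) (hp.map _) (fun i => ?_) ?_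
  · rw [Polynomial.coeff_map]
    exact h _
  · rw [Polynomial.eval_map]
    exact h0

theorem reg_of_isIntegral (v : DVal K) {S : Subalgebra ℂ K} (h : ∀ f ∈ S, v.Reg f) {f : K}
    (hf : IsIntegral S f) : v.Reg f :=
  mem_of_isIntegral (VS v) (fun s => h s.1 s.2) hf

end vs

variable {K : Type} [Field K] [Algebra ℂ K] (X : Model K)

theorem mem_R {i : Fin (X.n + 1)} {f : K} : f ∈ X.R i ↔ IsIntegral (X.A i) f := Iff.rfl

theorem A_le_R (i : Fin (X.n + 1)) : X.A i ≤ X.R i := fun f hf =>
  isIntegral_algebraMap (R := X.A i) (x := (⟨f, hf⟩ : X.A i))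

theorem ratio_mem_A (i j : Fin (X.n + 1)) : X.ξ j / X.ξ i ∈ X.A i :=
  Algebra.subset_adjoin ⟨j, rfl⟩

theorem ratio_mem_R (i j : Fin (X.n + 1)) : X.ξ j / X.ξ i ∈ X.R i := A_le_R X i (ratio_mem_A X i j)

theorem R_normal (i : Fin (X.n + 1)) (f : K) (hf : IsIntegral (X.R i) f) : f ∈ X.R i := by
  have h1 : IsIntegral (integralClosure (X.A i) K) f := hf
  exact isIntegral_trans f h1

theorem A_fg (i : Fin (X.n + 1)) : (X.A i).FG :=
  (Subalgebra.fg_iff_finiteType _).2 (Algebra.FiniteType.adjoin_of_finite (Set.finite_range _))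

theorem R_frac (i : Fin (X.n + 1)) (f : K) :
    ∃ a b : K, a ∈ X.R i ∧ b ∈ X.R i ∧ b ≠ 0 ∧ f * b = a := by
  obtain ⟨y, hy, h⟩ := IsAlgebraic.exists_integral_multiple (X.alg i f)
  refine ⟨f * (y : K), (y : K), ?_, A_le_R X i y.2, fun h0 => hy (Subtype.ext h0), rfl⟩
  rw [mem_R, mul_comm]
  exact h

end Pool.Agent.TH202
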