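import Mathlib
import Pool.Agent.TH202.Mod

/-!
# Points and centres
-/

set_option autoImplicit false

namespace Pool.Agent.TH202

open Pool.Agent.H436R3.Fol

variable {K : Type} [Field K] [Algebra ℂ K] {X : Model K}

theorem Pt.one_notMem (x : Pt X) : (1 : X.R x.i) ∉ x.p := fun h =>
  x.prime.ne_top ((Ideal.eq_top_iff_one _).2 h)

theorem Pt.mem_of_R (x : Pt X) {f : K} (hf : f ∈ X.R x.i) : x.Mem f :=
  ⟨1, x.one_notMem, by rw [OneMemClass.coe_one, one_mul]; exact hf⟩

theorem Pt.mem_mul (x : Pt X) {f g : K} (hf : x.Mem f) (hg : x.Mem g) : x.Mem (f * g) := by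
  obtain ⟨s, hs, hf⟩ := hf
  obtain ⟨t, ht, hg⟩ := hg
  refine ⟨s * t, fun h => (x.prime.mem_or_mem h).elim hs ht, ?_⟩
  have h1 : ((s * t : X.R x.i) : K) * (f * g) = ((s : K) * f) * ((t : K) * g) := by
    push_cast
    ring
  rw [h1]
  exact mul_mem hf hg

theorem Pt.mem_add (x : Pt X) {f g : K} (hf : x.Mem f) (hg : x.Mem g) : x.Mem (f + g) := by
  obtain ⟨s, hs, hf⟩ := hf
  obtain ⟨t, ht, hg⟩ := hg
  refine ⟨s * t, fun h => (x.prime.mem_or_mem h).elim hs ht, ?_⟩
  have h1 : ((s * t : X.R x.i) : K) * (f + g) = (t : K) * ((s : K) * f) + (s : K) * ((t : K) * g) := by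
    push_cast
    ring
  rw [h1]
  exact add_mem (mul_mem t.2 hf) (mul_mem s.2 hg)

theorem Pt.mem_inv (x : Pt X) {s : X.R x.i} (hs : s ∉ x.p) : x.Mem (s : K)⁻¹ := by
  refine ⟨s, hs, ?_⟩
  have h0 : (s : K) ≠ 0 := by
    intro h0
    apply hs
    have : s = 0 := Subtype.ext h0
    rw [this]
    exact x.p.zero_mem
  rw [mul_inv_cancel₀ h0]
  exact one_mem _

/-- The local ring at a point. -/
def Pt.loc (x : Pt X) : Subalgebra ℂ K where
  carrier := {f | x.Mem f}
  mul_mem' := x.mem_mul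
  add_mem' := x.mem_add
  algebraMap_mem' := fun c => x.mem_of_R ((X.R x.i).algebraMap_mem c)

theorem Pt.mem_loc {x : Pt X} {f : K} : f ∈ x.loc ↔ x.Mem f := Iff.rfl

theorem Pt.thr_iff (x : Pt X) (v : DVal K) :
    x.Thr v ↔ (∀ f ∈ X.R x.i, v.Reg f) ∧ ∀ s : X.R x.i, v.Pos (s : K) → s ∈ x.p := by
  constructor
  · intro h
    refine ⟨fun f hf => h f (x.mem_of_R hf), fun s hs => ?_⟩
    by_contra hsp
    have h1 := h _ (x.mem_inv hsp)
    have h0 : (s : K) ≠ 0 := by
      intro h0
      apply hsp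
      have : s = 0 := Subtype.ext h0
      rw [this]
      exact x.p.zero_mem
    have h2 := hs.resolve_left h0
    have h3 := h1.resolve_left (inv_ne_zero h0)
    rw [v.ord_inv h0] at h3
    omega
  · rintro ⟨h1, h2⟩ f ⟨s, hs, hf⟩
    have h0 : (s : K) ≠ 0 := by
      intro h0
      apply hs
      have : s = 0 := Subtype.ext h0
      rw [this]
      exact x.p.zero_mem
    by_cases hf0 : f = 0
    · left; exact hf0
    right
    have h3 := (h1 _ hf).resolve_left (mul_ne_zero h0 hf0)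
    rw [v.map_mul _ _ h0 hf0] at h3
    have h4 : ¬ v.Pos (s : K) := fun h => hs (h2 s h)
    have h5 : ¬ 0 < v.ord (s : K) := fun h => h4 (Or.inr h)
    omega

/-- The centre of a valuation on an affine chart. -/
def cenIdeal (v : DVal K) (S : Subalgebra ℂ K) (h : ∀ f ∈ S, v.Reg f) : Ideal S where
  carrier := {s | v.Pos (s : K)}
  add_mem' := by
    intro a b ha hb
    change v.Pos ((a + b : S) : K)
    push_cast
    exact v.pos_add ha hb
  zero_mem' := Or.inl rfl
  smul_mem' := by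
    intro c a ha
    change v.Pos ((c * a : S) : K)
    push_cast
    exact v.pos_mul_left (h _ c.2) ha

theorem mem_cenIdeal {v : DVal K} {S : Subalgebra ℂ K} {h : ∀ f ∈ S, v.Reg f} {s : S} :
    s ∈ cenIdeal v S h ↔ v.Pos (s : K) := Iff.rfl

theorem cenIdeal_prime (v : DVal K) (S : Subalgebra ℂ K) (h : ∀ f ∈ S, v.Reg f) :
    (cenIdeal v S h).IsPrime := by
  constructor
  · intro h1
    have : (1 : S) ∈ cenIdeal v S h := by rw [h1]; trivial
    rcases (this : v.Pos ((1 : S) : K)) with h | h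
    · exact one_ne_zero h
    · rw [OneMemClass.coe_one, v.ord_one] at h
      exact lt_irrefl _ h
  · intro a b hab
    change v.Pos ((a * b : S) : K) at hab
    push_cast at hab
    by_cases ha : (a : K) = 0
    · left; exact Or.inl ha
    by_cases hb : (b : K) = 0
    · right; exact Or.inl hb
    have h3 := hab.resolve_left (mul_ne_zero ha hb)
    rw [v.map_mul _ _ ha hb] at h3
    have h4 := (h _ a.2).resolve_left ha
    rcases lt_or_ge 0 (v.ord (a : K)) with h5 | h5
    · left; exact Or.inr h5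
    · right
      refine Or.inr ?_
      omega

/-- Every valuation has a centre. -/
theorem exists_chart (X : Model K) (v : DVal K) :
    ∃ i, (∀ j, v.ord (X.ξ i) ≤ v.ord (X.ξ j)) ∧ ∀ f ∈ X.R i, v.Reg f := by
  obtain ⟨i, _, hi⟩ := Finset.exists_min_image Finset.univ (fun j => v.ord (X.ξ j))
    Finset.univ_nonempty
  refine ⟨i, fun j => hi j (Finset.mem_univ j), fun f hf => ?_⟩
  refine reg_of_isIntegral v (S := X.A i) ?_ hf
  intro g hg
  refine Algebra.adjoin_induction (p := fun g _ => v.Reg g) ?_ ?_ ?_ ?_ hg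
  · rintro _ ⟨j, rfl⟩
    right
    change 0 ≤ v.ord (X.ξ j / X.ξ i)
    rw [v.ord_div (X.ne j) (X.ne i)]
    have := hi j (Finset.mem_univ j)
    omega
  · exact fun c => v.reg_const c
  · exact fun f g _ _ hf hg => v.reg_add hf hg
  · exact fun f g _ _ hf hg => v.reg_mul hf hg

/-- The generic point of the centre of a valuation. -/
theorem exists_cen (X : Model K) (v : DVal K) :
    ∃ x : Pt X, x.Thr v ∧ (∀ j, v.ord (X.ξ x.i) ≤ v.ord (X.ξ j)) ∧
      ∀ s : X.R x.i, s ∈ x.p ↔ v.Pos (s : K) := by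
  obtain ⟨i, hi, h⟩ := exists_chart X v
  refine ⟨⟨i, cenIdeal v _ h, cenIdeal_prime v _ h⟩, ?_, hi, fun s => Iff.rfl⟩
  rw [Pt.thr_iff]
  exact ⟨h, fun s hs => hs⟩

theorem exists_denom (x : Pt X) (s : Finset K) (hs : ∀ f ∈ s, x.Mem f) :
    ∃ t : X.R x.i, t ∉ x.p ∧ ∀ f ∈ s, (t : K) * f ∈ X.R x.i := by
  classical
  induction s using Finset.induction_on with
  | empty => exact ⟨1, x.one_notMem, fun f hf => absurd hf (Finset.notMem_empty f)⟩
  | insert a s _ ih =>
    obtain ⟨t, ht, h⟩ := ih fun f hf => hs f (Finset.mem_insert_of_mem hf)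
    obtain ⟨u, hu, h'⟩ := hs a (Finset.mem_insert_self a s)
    refine ⟨t * u, fun h1 => (x.prime.mem_or_mem h1).elim ht hu, fun f hf => ?_⟩
    rcases Finset.mem_insert.1 hf with rfl | hf
    · have : ((t * u : X.R x.i) : K) * f = (t : K) * ((u : K) * f) := by push_cast; ring
      rw [this]
      exact mul_mem t.2 h'
    · have : ((t * u : X.R x.i) : K) * f = (u : K) * ((t : K) * f) := by push_cast; ring
      rw [this]
      exact mul_mem u.2 (h f hf)

theorem mem_R_of_root {i : Fin (X.n + 1)} (p : Polynomial K) (hp : p.Monic)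
    (h : ∀ j, p.coeff j ∈ X.R i) {u : K} (hu : p.eval u = 0) : u ∈ X.R i := by
  apply R_normal
  have hs : (p.coeffs : Set K) ⊆ (X.R i).toSubring := by
    intro y hy
    rw [Finset.mem_coe, Polynomial.mem_coeffs_iff] at hy
    obtain ⟨j, _, rfl⟩ := hy
    exact h j
  refine ⟨p.toSubring (X.R i).toSubring hs, (Polynomial.monic_toSubring p _ hs).2 hp, ?_⟩
  have h1 : (p.toSubring (X.R i).toSubring hs).map (algebraMap (X.R i).toSubring K) = p := by
    ext j
    rw [Polynomial.coeff_map]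
    exact Polynomial.coeff_toSubring _ _ _
  have h2 : Polynomial.eval₂ (algebraMap (X.R i).toSubring K) u
      (p.toSubring (X.R i).toSubring hs) = 0 := by
    rw [← Polynomial.eval_map, h1]
    exact hu
  exact h2

theorem mem_of_root' (x : Pt X) (p : Polynomial K) (hp : p.Monic)
    (h : ∀ j, x.Mem (p.coeff j)) {u : K} (hu : p.eval u = 0) : x.Mem u := by
  obtain ⟨t, ht, h'⟩ := exists_denom x p.coeffs fun f hf => by
    rw [Polynomial.mem_coeffs_iff] at hf
    obtain ⟨j, _, rfl⟩ := hf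
    exact h j
  refine ⟨t, ht, ?_⟩
  refine mem_R_of_root (p.scaleRoots (t : K)) (by rw [Polynomial.monic_scaleRoots_iff]; exact hp)
    (fun j => ?_) ?_
  · rw [Polynomial.coeff_scaleRoots]
    by_cases hj0 : p.coeff j = 0
    · rw [hj0, zero_mul]
      exact zero_mem _
    have hj1 : p.coeff j ∈ p.coeffs := Polynomial.coeff_mem_coeffs hj0
    have hj2 : j ≤ p.natDegree := Polynomial.le_natDegree_of_ne_zero hj0
    rcases hj2.eq_or_lt with rfl | hj3
    · rw [Nat.sub_self, pow_zero, mul_one, hp.coeff_natDegree]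
      exact one_mem _
    · obtain ⟨k, hk⟩ := Nat.exists_eq_add_of_lt hj3
      have : p.natDegree - j = k + 1 := by omega
      rw [this, pow_succ, mul_comm, mul_assoc]
      exact mul_mem (pow_mem t.2 _) (h' _ hj1)
  · rw [Polynomial.scaleRoots_eval_mul, hu, mul_zero]

end Pool.Agent.TH202
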