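import Mathlib
import Pool.Agent.H436R3.Fol.Val

/-!
# The function field of the example
-/

set_option autoImplicit false

namespace Pool.Agent.TH202

open Pool.Agent.H436R3.Fol MvPolynomial

/-- The cyclic cubic extension `K = ℂ(a, b, c)(r)`, `r^3 = ((1 - b^2) / b^2) / ((1 - a^2) / a^2)`,
with its automorphism. -/
structure Dat (K : Type) [Field K] [Algebra ℂ K] where
  a : K
  b : K
  c : K
  r : K
  ind : AlgebraicIndependent ℂ ![a, b, c]
  r3 : r ^ 3 * (b ^ 2 * (1 - a ^ 2)) = a ^ 2 * (1 - b ^ 2)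
  gen : ∀ f : K, ∃ g0 ∈ IntermediateField.adjoin ℂ ({a, b, c} : Set K),
    ∃ g1 ∈ IntermediateField.adjoin ℂ ({a, b, c} : Set K),
    ∃ g2 ∈ IntermediateField.adjoin ℂ ({a, b, c} : Set K), f = g0 + g1 * r + g2 * r ^ 2
  ω : ℂ
  hω : IsPrimitiveRoot ω 3
  σ : K →ₐ[ℂ] K
  σa : σ a = a
  σb : σ b = b
  σc : σ c = c
  σr : σ r = algebraMap ℂ K ω * r

variable {K : Type} [Field K] [Algebra ℂ K]

/-- The negative part. -/
noncomputable def ng (x : ℤ) : ℝ := max 0 (-(x : ℝ))

/-- The positive part. -/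
noncomputable def ps (x : ℤ) : ℝ := max 0 (x : ℝ)

/-- The foliation is given by the partial derivatives with respect to `a, b, c`. -/
def IsPd (d : Dat K) (T : Foliation K 3) : Prop :=
  ∀ i j, T.D i (![d.a, d.b, d.c] j) = if i = j then 1 else 0

/-- `v` is trivial on `ℂ(a, b)` and `c` has a zero. -/
def IsS (d : Dat K) (v : DVal K) : Prop :=
  (∀ q : MvPolynomial (Fin 2) ℂ, q ≠ 0 → v.ord (aeval ![d.a, d.b] q) = 0) ∧ 0 < v.ord d.c

/-- The integral closure in `K` of the algebra generated by three elements. -/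
def IC (t : Fin 3 → K) : Subalgebra ℂ K :=
  (integralClosure (Algebra.adjoin ℂ (Set.range t)) K).restrictScalars ℂ

end Pool.Agent.TH202
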