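import Mathlib
import Pool.Agent.TH202.Defs

/-!
# Algebraicity over the ratios of homogeneous coordinates
-/

set_option autoImplicit false

namespace Pool.Agent.TH202

open scoped IntermediateField.algebraAdjoinAdjoin

variable {K : Type} [Field K] [Algebra ℂ K]

theorem alg_mono {S S' : Set K} (h : S ⊆ IntermediateField.adjoin ℂ S') {f : K}
    (hf : IsAlgebraic (Algebra.adjoin ℂ S) f) : IsAlgebraic (Algebra.adjoin ℂ S') f := by
  have h1 : Algebra.adjoin ℂ S ≤ (IntermediateField.adjoin ℂ S').toSubalgebra :=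
    Algebra.adjoin_le h
  have h2 : IsAlgebraic (IntermediateField.adjoin ℂ S') f := by
    obtain ⟨p, hp, hpf⟩ := hf
    let θ : Algebra.adjoin ℂ S →ₐ[ℂ] (IntermediateField.adjoin ℂ S').toSubalgebra :=
      Subalgebra.inclusion h1
    have hθ : Function.Injective θ := Subalgebra.inclusion_injective h1
    refine ⟨p.map θ.toRingHom, ?_, ?_⟩
    · exact (Polynomial.map_ne_zero_iff hθ).2 hp
    · have h3 : (algebraMap (IntermediateField.adjoin ℂ S') K).comp θ.toRingHom =
          algebraMap (Algebra.adjoin ℂ S) K := by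
        ext z
        rfl
      rw [Polynomial.aeval_def, Polynomial.eval₂_map, h3]
      exact hpf
  exact (IsFractionRing.isAlgebraic_iff (Algebra.adjoin ℂ S') (IntermediateField.adjoin ℂ S') K).2 h2

theorem alg_of_zero {n : ℕ} (ξ : Fin (n + 1) → K) (hξ : ∀ j, ξ j ≠ 0)
    (h : ∀ f : K, IsAlgebraic (Algebra.adjoin ℂ (Set.range fun j => ξ j / ξ 0)) f) :
    ∀ i, ∀ f : K, IsAlgebraic (Algebra.adjoin ℂ (Set.range fun j => ξ j / ξ i)) f := by
  intro i f
  refine alg_mono ?_ (h f)
  rintro _ ⟨j, rfl⟩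
  have h1 : ξ j / ξ i ∈ IntermediateField.adjoin ℂ (Set.range fun j => ξ j / ξ i) :=
    IntermediateField.subset_adjoin _ _ ⟨j, rfl⟩
  have h2 : ξ 0 / ξ i ∈ IntermediateField.adjoin ℂ (Set.range fun j => ξ j / ξ i) :=
    IntermediateField.subset_adjoin _ _ ⟨0, rfl⟩
  have h3 : ξ j / ξ 0 = (ξ j / ξ i) / (ξ 0 / ξ i) := by
    have := hξ 0
    have := hξ i
    field_simp
  change ξ j / ξ 0 ∈ IntermediateField.adjoin ℂ (Set.range fun j => ξ j / ξ i)
  rw [h3]
  exact div_mem h1 h2

end Pool.Agent.TH202
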