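import Mathlib
import Pool.Agent.TH202.Defs
import Pool.Agent.TH202.Dat

/-!
# The variety and the divisors of the example
-/

set_option autoImplicit false

namespace Pool.Agent.TH202

open Pool.Agent.H436R3.Fol MvPolynomial

variable {K : Type} [Field K] [Algebra ℂ K]

/-- `t` is `1` or `y`, and it generates the fractional ideal `(1, y)` of the valuation ring `V`. -/
def Gen {L : Type} [Field L] (V : ValuationSubring L) (t y : L) : Prop :=
  t ≠ 0 ∧ (t = 1 ∨ t = y) ∧ t⁻¹ ∈ V ∧ y * t⁻¹ ∈ V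

/-- The `y`-coordinates of a Fibonacci sequence of points of the elliptic curve `y^2 = x^3 + 1`. -/
structure Sq (d : Dat K) where
  y : ℕ → K
  D : ℕ → K
  y_ne : ∀ k, y k ≠ 0
  D_ne : ∀ k, D k ≠ 0
  y1 : y 1 = d.b⁻¹
  y2 : y 2 = d.a⁻¹
  par : ∀ (k : ℕ) (V : ValuationSubring K), (∀ z : ℂ, algebraMap ℂ K z ∈ V) →
    ∀ t0 t1 t2 t3 : K, Gen V t0 (y k) → Gen V t1 (y (k + 1)) → Gen V t2 (y (k + 2)) →
      Gen V t3 (y (k + 3)) → t3 * t0 * D k * (t2 ^ 2 * t1 ^ 2)⁻¹ ∈ V ∧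
        (t3 * t0 * D k * (t2 ^ 2 * t1 ^ 2)⁻¹)⁻¹ ∈ V
  fil : ∀ k, 1 ≤ k → ∀ v : DVal K, 0 < v.ord d.c → v.ord (y (k + 1)) = -v.ord d.c →
    v.ord (y k) = -v.ord d.c → v.ord d.c ≤ v.ord d.a ∧ v.ord d.c ≤ v.ord d.b
  ind : ∀ k, 1 ≤ k → AlgebraicIndependent ℂ ![(y (k + 1))⁻¹, (y k)⁻¹, d.c]
  alg : ∀ k, 1 ≤ k → ∀ f : K,
    IsAlgebraic (Algebra.adjoin ℂ (Set.range ![(y (k + 1))⁻¹, (y k)⁻¹, d.c])) f
  triv : ∀ v : DVal K, IsS d v → ∀ k, v.ord (y k) = 0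
  pair : ∀ k, 1 ≤ k → ∀ v : DVal K,
    (∀ q : MvPolynomial (Fin 2) ℂ, q ≠ 0 → v.ord (aeval ![(y (k + 1))⁻¹, (y k)⁻¹] q) = 0) →
    ∀ q : MvPolynomial (Fin 2) ℂ, q ≠ 0 → v.ord (aeval ![d.a, d.b] q) = 0

/-- The positive part of the minimum of the orders of `a, b, c`: the multiplicity at the origin. -/
noncomputable def mn (d : Dat K) (v : DVal K) : ℝ :=
  max 0 (min (v.ord d.a : ℝ) (min (v.ord d.b : ℝ) (v.ord d.c : ℝ)))

/-- The b-divisor of the strict transform of `c = 0` in the blow-up of the origin. -/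
noncomputable def Sb (d : Dat K) (v : DVal K) : ℝ := ps (v.ord d.c) - mn d v

/-- The homogeneous coordinates of the blow-up of `P^1 × P^1 × P^1` at the origin. -/
noncomputable def xi (d : Dat K) : Fin 10 → K :=
  ![d.a, d.b, d.c, d.a ^ 2, d.b ^ 2, d.c ^ 2, d.a ^ 2 * d.b ^ 2, d.b ^ 2 * d.c ^ 2,
    d.a ^ 2 * d.c ^ 2, d.a ^ 2 * d.b ^ 2 * d.c ^ 2]

theorem Dat.a_ne (d : Dat K) : d.a ≠ 0 := d.ind.ne_zero 0
theorem Dat.b_ne (d : Dat K) : d.b ≠ 0 := d.ind.ne_zero 1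
theorem Dat.c_ne (d : Dat K) : d.c ≠ 0 := d.ind.ne_zero 2

theorem xi_ne (d : Dat K) : ∀ j, xi d j ≠ 0 := by
  have ha := d.a_ne
  have hb := d.b_ne
  have hc := d.c_ne
  intro j
  fin_cases j <;> simp [xi, ha, hb, hc]

/-- Algebraicity over the ratios of the homogeneous coordinates. -/
def XiAlg (d : Dat K) : Prop :=
  ∀ i, ∀ f : K, IsAlgebraic (Algebra.adjoin ℂ (Set.range fun j => xi d j / xi d i)) f

/-- The variety `X`: the normalization in `K` of the blow-up of `P^1 × P^1 × P^1` at the origin. -/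
noncomputable def Xd (d : Dat K) (h : XiAlg d) : Model K where
  n := 9
  ξ := xi d
  ne := xi_ne d
  alg := h

/-- The b-divisor `max (0, -v(y_k))`. -/
noncomputable def Th {d : Dat K} (s : Sq d) (k : ℕ) : DVal K → ℝ := Lin (m := 1) ![1, s.y k]

/-- The b-divisors `A_k`. -/
noncomputable def Ak {d : Dat K} (s : Sq d) (k : ℕ) : DVal K → ℝ := Th s (k + 1) + Th s k

/-- The small root of `x^2 - 3x + 1`. -/
noncomputable def kap : ℝ := (3 - Real.sqrt 5) / 2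

/-- The irrational nef class. -/
noncomputable def bet {d : Dat K} (s : Sq d) : DVal K → ℝ := Ak s 2 - kap • Ak s 1

/-- The b-divisor of the pull-backs of `K_X + B + β_X`. -/
noncomputable def Dd {d : Dat K} (s : Sq d) (ε : ℝ) : DVal K → ℝ := fun v =>
  ε * Sb d v + bet s v + 2 / 3 * (v.ord d.c : ℝ) + 2 / 3 * (v.ord ((1 - d.a ^ 2) / d.a ^ 2) : ℝ)
    + 2 / 3 * (v.ord ((1 - d.b ^ 2) / d.b ^ 2) : ℝ) + 2 * (v.ord d.a : ℝ) + 2 * (v.ord d.b : ℝ)

/-- The nef part of the generalized pair. -/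
noncomputable def bt {d : Dat K} (s : Sq d) : DVal K → ℝ := fun v =>
  bet s v + 4 / 3 * ng (v.ord d.c)

/-- The boundary of the generalized pair. -/
noncomputable def Bd (d : Dat K) (ε : ℝ) : DVal K → ℝ := fun v => (2 / 3 + ε) * Sb d v

end Pool.Agent.TH202
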