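import Mathlib
import Pool.Agent.TH202.Defs

/-!
# Flips

All varieties are normal and projective with function field `K`; see `Defs`.
-/

set_option autoImplicit false

namespace Pool.Agent.TH202

open Pool.Agent.H436R3.Fol

variable {K : Type} [Field K] [Algebra ℂ K]

/-- The birational map `Y ⇢ Z` is a morphism: every local ring of `Y` contains a local ring
of `Z`. -/
def IsMor (Y Z : Model K) : Prop := ∀ y : Pt Y, ∃ z : Pt Z, ∀ f, z.Mem f → y.Mem f

/-- `Y ⇢ Z` is a small birational contraction: it is a morphism, but not an isomorphism, and no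
prime divisor of `Y` is exceptional. -/
def IsSmall (Y Z : Model K) : Prop :=
  IsMor Y Z ∧ ¬ IsMor Z Y ∧ ∀ w, IsPrimeOn Y w → IsPrimeOn Z w

/-- The `ℝ`-Cartier divisor `D` on `Y` is ample: `D - δ H`, `H` ample, is nef for some `δ > 0`. -/
def IsAmple (Y : Model K) (D : DVal K → ℝ) : Prop := ∃ δ : ℝ, 0 < δ ∧ IsNef Y (D - δ • Y.H)

/-- The `ℝ`-Cartier divisor `D` on `Y` is ample over `Z`, for the morphism `Y → Z`: the divisor
`D + m H_Z`, `H_Z` the pull-back of an ample divisor on `Z`, is ample for some `m`. -/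
def IsAmpleOver (Y Z : Model K) (D : DVal K → ℝ) : Prop := ∃ m : ℝ, IsAmple Y (D + m • Z.H)

/-- `D` is nonzero on finitely many prime divisors of `Y` only. -/
def FinSupp (Y : Model K) (D : DVal K → ℝ) : Prop :=
  ∃ Z : Set (DVal K), Z.Finite ∧ ∀ w, IsPrimeOn Y w → D w ≠ 0 → ∃ z ∈ Z, Same w z

/-- Every `ℝ`-Cartier divisor on `Y` is the sum of a real multiple of `D` and the pull-back of an
`ℝ`-Cartier divisor on `Z`. -/
def IsRho (Y Z : Model K) (D : DVal K → ℝ) : Prop :=
  ∀ C : DVal K → ℝ, IsRCar Y C → FinSupp Y C → ∃ t : ℝ, IsRCar Z (C - t • D)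

/-- The birational map `Y ⇢ Y'` is the flip of a flipping contraction `Y → Z` with relative Picard
number one, with respect to the divisor `K + B + β` with the b-divisors `D` on `Y` and `D'`
on `Y'`. -/
def IsFlip (Y Y' : Model K) (D D' : DVal K → ℝ) : Prop :=
  ∃ Z : Model K, IsSmall Y Z ∧ IsSmall Y' Z ∧ IsAmpleOver Y Z (-D) ∧ IsAmpleOver Y' Z D' ∧
    IsRho Y Z D ∧ IsRho Y' Z D'

end Pool.Agent.TH202
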