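import Mathlib
import Pool.Agent.TH202.FlDefs
import Pool.Agent.TH202.Ex
import Pool.Agent.TH202.Alg

/-!
# The varieties in the sequence of flips
-/

set_option autoImplicit false

namespace Pool.Agent.TH202

open Pool.Agent.H436R3.Fol MvPolynomial

variable {K : Type} [Field K] [Algebra ℂ K]

/-- The products of the members of two linear systems. -/
def pm {m n : ℕ} (f : Fin (m + 1) → K) (g : Fin (n + 1) → K) : Fin ((m + 1) * n + m + 1) → K :=
  fun j => f (finProdFinEquiv.symm (Fin.cast (by ring) j : Fin ((m + 1) * (n + 1)))).1 *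
    g (finProdFinEquiv.symm (Fin.cast (by ring) j : Fin ((m + 1) * (n + 1)))).2

theorem pm_exists {m n : ℕ} (f : Fin (m + 1) → K) (g : Fin (n + 1) → K) (i : Fin (m + 1))
    (j : Fin (n + 1)) : ∃ l, pm f g l = f i * g j := by
  refine ⟨Fin.cast (by ring) (finProdFinEquiv (i, j)), ?_⟩
  unfold pm
  rw [Fin.cast_cast, Fin.cast_refl]
  simp

theorem pm_form {m n : ℕ} (f : Fin (m + 1) → K) (g : Fin (n + 1) → K)
    (l : Fin ((m + 1) * n + m + 1)) : ∃ i j, pm f g l = f i * g j :=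
  ⟨_, _, rfl⟩

theorem pm_ne {m n : ℕ} {f : Fin (m + 1) → K} {g : Fin (n + 1) → K} (hf : ∀ j, f j ≠ 0)
    (hg : ∀ j, g j ≠ 0) : ∀ j, pm f g j ≠ 0 := fun _ => mul_ne_zero (hf _) (hg _)

/-- The linear system `1, y_k, 1/c`. -/
def e3 {d : Dat K} (s : Sq d) (k : ℕ) : Fin (2 + 1) → K := ![1, s.y k, d.c⁻¹]

/-- The linear system `1, 1/c`. -/
def e2 (d : Dat K) : Fin (1 + 1) → K := ![1, d.c⁻¹]

theorem e3_ne {d : Dat K} (s : Sq d) (k : ℕ) : ∀ j, e3 s k j ≠ 0 := by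
  intro j
  have h1 := s.y_ne k
  have h2 := inv_ne_zero d.c_ne
  fin_cases j
  · exact one_ne_zero
  · exact h1
  · exact h2

theorem e2_ne (d : Dat K) : ∀ j, e2 d j ≠ 0 := by
  intro j
  have h2 := inv_ne_zero d.c_ne
  fin_cases j
  · exact one_ne_zero
  · exact h2

/-- The b-divisor of the linear system `1, y_k, 1/c`. -/
noncomputable def Lk {d : Dat K} (s : Sq d) (k : ℕ) : DVal K → ℝ := Lin (e3 s k)

/-- Ratios of the products of two linear systems generate the ratios of the factors. -/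
theorem pm_ratio {m n : ℕ} {f : Fin (m + 1) → K} {g : Fin (n + 1) → K} (hf : ∀ j, f j ≠ 0)
    (hg : ∀ j, g j ≠ 0) (l : Fin ((m + 1) * n + m + 1)) :
    ∃ i j, pm f g l = f i * g j ∧ (∀ i', ∃ l', pm f g l' / pm f g l = f i' / f i) ∧
      ∀ j', ∃ l', pm f g l' / pm f g l = g j' / g j := by
  obtain ⟨i, j, h⟩ := pm_form f g l
  refine ⟨i, j, h, fun i' => ?_, fun j' => ?_⟩
  · obtain ⟨l', hl'⟩ := pm_exists f g i' j
    refine ⟨l', ?_⟩
    rw [hl', h]
    have := hf i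
    have := hg j
    field_simp
  · obtain ⟨l', hl'⟩ := pm_exists f g i j'
    refine ⟨l', ?_⟩
    rw [hl', h]
    have := hf i
    have := hg j
    field_simp

theorem alg_field {S : Set K} {T : IntermediateField ℂ K} (h : S ⊆ T) (hS : ∀ f : K,
    IsAlgebraic (Algebra.adjoin ℂ S) f) (R : Set K) (hT : T = IntermediateField.adjoin ℂ R)
    (f : K) : IsAlgebraic (Algebra.adjoin ℂ R) f :=
  alg_mono (by rw [← hT]; exact h) (hS f)

theorem ratio_field {n : ℕ} (ξ : Fin (n + 1) → K) (hξ : ∀ j, ξ j ≠ 0)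
    (i j k : Fin (n + 1)) : ξ j / ξ k ∈ IntermediateField.adjoin ℂ (Set.range fun j => ξ j / ξ i) := by
  have h1 : ξ j / ξ i ∈ IntermediateField.adjoin ℂ (Set.range fun j => ξ j / ξ i) :=
    IntermediateField.subset_adjoin _ _ ⟨j, rfl⟩
  have h2 : ξ k / ξ i ∈ IntermediateField.adjoin ℂ (Set.range fun j => ξ j / ξ i) :=
    IntermediateField.subset_adjoin _ _ ⟨k, rfl⟩
  have h3 : ξ j / ξ k = (ξ j / ξ i) / (ξ k / ξ i) := by
    have := hξ k
    have := hξ i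
    field_simp
  rw [h3]
  exact div_mem h1 h2

/-- The linear system on the base of the flip. -/
def sys2 {d : Dat K} (s : Sq d) (k : ℕ) := pm (pm (e3 s k) (e3 s (k + 1))) (e2 d)

/-- The linear system on the varieties in the sequence. -/
def sys3 {d : Dat K} (s : Sq d) (k : ℕ) :=
  pm (pm (pm (e3 s k) (e3 s (k + 1))) (e3 s (k + 2))) (e2 d)

theorem sys2_ne {d : Dat K} (s : Sq d) (k : ℕ) : ∀ j, sys2 s k j ≠ 0 :=
  pm_ne (pm_ne (e3_ne s k) (e3_ne s _)) (e2_ne d)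

theorem sys3_ne {d : Dat K} (s : Sq d) (k : ℕ) : ∀ j, sys3 s k j ≠ 0 :=
  pm_ne (pm_ne (pm_ne (e3_ne s k) (e3_ne s _)) (e3_ne s _)) (e2_ne d)

/-- Algebraicity over a field containing `y_k, y_{k+1}, c`. -/
theorem alg_of_mem {d : Dat K} (s : Sq d) {k : ℕ} (hk : 1 ≤ k) (R : Set K)
    (h0 : s.y k ∈ IntermediateField.adjoin ℂ R) (h1 : s.y (k + 1) ∈ IntermediateField.adjoin ℂ R)
    (hc : d.c⁻¹ ∈ IntermediateField.adjoin ℂ R) (f : K) : IsAlgebraic (Algebra.adjoin ℂ R) f := by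
  refine alg_mono ?_ (s.alg k hk f)
  rintro _ ⟨j, rfl⟩
  fin_cases j
  · exact inv_mem h1
  · exact inv_mem h0
  · have := inv_mem hc
    rwa [inv_inv] at this

theorem sys2_alg {d : Dat K} (s : Sq d) {k : ℕ} (hk : 1 ≤ k) : ∀ i, ∀ f : K,
    IsAlgebraic (Algebra.adjoin ℂ (Set.range fun j => sys2 s k j / sys2 s k i)) f := by
  intro i f
  obtain ⟨i1, i2, _, h1, h2⟩ := pm_ratio (pm_ne (e3_ne s k) (e3_ne s (k + 1))) (e2_ne d) i
  obtain ⟨i3, i4, _, h3, h4⟩ := pm_ratio (e3_ne s k) (e3_ne s (k + 1)) i1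
  set T := IntermediateField.adjoin ℂ (Set.range fun j => sys2 s k j / sys2 s k i) with hT
  have m1 : ∀ i', pm (e3 s k) (e3 s (k + 1)) i' / pm (e3 s k) (e3 s (k + 1)) i1 ∈ T := by
    intro i'
    obtain ⟨l, hl⟩ := h1 i'
    rw [← hl]
    exact IntermediateField.subset_adjoin _ _ ⟨l, rfl⟩
  have m2 : ∀ i', e2 d i' / e2 d i2 ∈ T := by
    intro i'
    obtain ⟨l, hl⟩ := h2 i'
    rw [← hl]
    exact IntermediateField.subset_adjoin _ _ ⟨l, rfl⟩
  have m3 : ∀ i', e3 s k i' / e3 s k i3 ∈ T := by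
    intro i'
    obtain ⟨l, hl⟩ := h3 i'
    rw [← hl]
    exact m1 l
  have m4 : ∀ i', e3 s (k + 1) i' / e3 s (k + 1) i4 ∈ T := by
    intro i'
    obtain ⟨l, hl⟩ := h4 i'
    rw [← hl]
    exact m1 l
  refine alg_of_mem s hk _ ?_ ?_ ?_ f
  · have := div_mem (m3 1) (m3 0)
    have e : e3 s k 1 / e3 s k i3 / (e3 s k 0 / e3 s k i3) = s.y k := by
      have n3 := e3_ne s k i3
      have : e3 s k 0 = 1 := rfl
      have : e3 s k 1 = s.y k := rfl
      field_simp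
      simp [e3]
    rwa [e] at this
  · have := div_mem (m4 1) (m4 0)
    have e : e3 s (k + 1) 1 / e3 s (k + 1) i4 / (e3 s (k + 1) 0 / e3 s (k + 1) i4) =
        s.y (k + 1) := by
      have n3 := e3_ne s (k + 1) i4
      field_simp
      simp [e3]
    rwa [e] at this
  · have := div_mem (m2 1) (m2 0)
    have e : e2 d 1 / e2 d i2 / (e2 d 0 / e2 d i2) = d.c⁻¹ := by
      have n3 := e2_ne d i2
      field_simp
      simp [e2]
    rwa [e] at this

theorem sys3_alg {d : Dat K} (s : Sq d) {k : ℕ} (hk : 1 ≤ k) : ∀ i, ∀ f : K,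
    IsAlgebraic (Algebra.adjoin ℂ (Set.range fun j => sys3 s k j / sys3 s k i)) f := by
  intro i f
  obtain ⟨i1, i2, _, h1, h2⟩ := pm_ratio (pm_ne (pm_ne (e3_ne s k) (e3_ne s (k + 1)))
    (e3_ne s (k + 2))) (e2_ne d) i
  obtain ⟨i5, i6, _, h5, h6⟩ := pm_ratio (pm_ne (e3_ne s k) (e3_ne s (k + 1)))
    (e3_ne s (k + 2)) i1
  obtain ⟨i3, i4, _, h3, h4⟩ := pm_ratio (e3_ne s k) (e3_ne s (k + 1)) i5
  set T := IntermediateField.adjoin ℂ (Set.range fun j => sys3 s k j / sys3 s k i) with hT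
  have m1 : ∀ i', pm (pm (e3 s k) (e3 s (k + 1))) (e3 s (k + 2)) i' /
      pm (pm (e3 s k) (e3 s (k + 1))) (e3 s (k + 2)) i1 ∈ T := by
    intro i'
    obtain ⟨l, hl⟩ := h1 i'
    rw [← hl]
    exact IntermediateField.subset_adjoin _ _ ⟨l, rfl⟩
  have m5 : ∀ i', pm (e3 s k) (e3 s (k + 1)) i' / pm (e3 s k) (e3 s (k + 1)) i5 ∈ T := by
    intro i'
    obtain ⟨l, hl⟩ := h5 i'
    rw [← hl]
    exact m1 l
  have m2 : ∀ i', e2 d i' / e2 d i2 ∈ T := by
    intro i'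
    obtain ⟨l, hl⟩ := h2 i'
    rw [← hl]
    exact IntermediateField.subset_adjoin _ _ ⟨l, rfl⟩
  have m3 : ∀ i', e3 s k i' / e3 s k i3 ∈ T := by
    intro i'
    obtain ⟨l, hl⟩ := h3 i'
    rw [← hl]
    exact m5 l
  have m4 : ∀ i', e3 s (k + 1) i' / e3 s (k + 1) i4 ∈ T := by
    intro i'
    obtain ⟨l, hl⟩ := h4 i'
    rw [← hl]
    exact m5 l
  refine alg_of_mem s hk _ ?_ ?_ ?_ f
  · have := div_mem (m3 1) (m3 0)
    have e : e3 s k 1 / e3 s k i3 / (e3 s k 0 / e3 s k i3) = s.y k := by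
      have n3 := e3_ne s k i3
      field_simp
      simp [e3]
    rwa [e] at this
  · have := div_mem (m4 1) (m4 0)
    have e : e3 s (k + 1) 1 / e3 s (k + 1) i4 / (e3 s (k + 1) 0 / e3 s (k + 1) i4) =
        s.y (k + 1) := by
      have n3 := e3_ne s (k + 1) i4
      field_simp
      simp [e3]
    rwa [e] at this
  · have := div_mem (m2 1) (m2 0)
    have e : e2 d 1 / e2 d i2 / (e2 d 0 / e2 d i2) = d.c⁻¹ := by
      have n3 := e2_ne d i2
      field_simp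
      simp [e2]
    rwa [e] at this

/-- The base of the flip. -/
noncomputable def M2 {d : Dat K} (s : Sq d) (k : ℕ) (hk : 1 ≤ k) : Model K where
  n := _
  ξ := sys2 s k
  ne := sys2_ne s k
  alg := sys2_alg s hk

/-- The varieties in the sequence of flips. -/
noncomputable def M3 {d : Dat K} (s : Sq d) (k : ℕ) (hk : 1 ≤ k) : Model K where
  n := _
  ξ := sys3 s k
  ne := sys3_ne s k
  alg := sys3_alg s hk

end Pool.Agent.TH202
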