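import Mathlib
import Pool.Agent.TH202.FlEx
import Pool.Agent.TH202.Mod
import Pool.Agent.TH202.Cen
import Pool.Agent.TH189.C8_VS

/-!
# Residues: auxiliary definitions
-/

set_option autoImplicit false

namespace Pool.Agent.TH202

open Pool.Agent.H436R3.Fol MvPolynomial

variable {K : Type} [Field K] [Algebra ℂ K]

/-- The integral closure in `K` of the subalgebra generated by `T`. -/
def ICs (T : Set K) : Subalgebra ℂ K :=
  (integralClosure (Algebra.adjoin ℂ T) K).restrictScalars ℂ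

/-- `f` and `g` are in the valuation ring and their residues are algebraically independent. -/
def Ind2 (w : DVal K) (f g : K) : Prop :=
  w.Reg f ∧ w.Reg g ∧ ∀ q : MvPolynomial (Fin 2) ℂ, q ≠ 0 → ¬ w.Pos (aeval ![f, g] q)

/-- The ring generated by the residues of the elements of `S`. -/
def rsub (w : DVal K) (S : Set K) : Subring (IsLocalRing.ResidueField (VS w)) :=
  ((Algebra.adjoin ℂ S).toSubring.comap (VS w).subtype).map (IsLocalRing.residue (VS w))

/-- `f` is in the valuation ring and its residue is algebraic over the ring generated by the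
residues of the elements of `S`. -/
def RA (w : DVal K) (S : Set K) (f : K) : Prop :=
  ∃ hf : f ∈ VS w, IsAlgebraic (rsub w S) (IsLocalRing.residue (VS w) ⟨f, hf⟩)

/-- The field `F = ℂ(a, b, r)`. -/
noncomputable abbrev Fc (d : Dat K) := Pool.Agent.TH189.C8_VS.kap d

/-- `w` is trivial on the field `F = ℂ(a, b, r)`. -/
def IsTriv (d : Dat K) (w : DVal K) : Prop := ∀ f ∈ Fc d, f ≠ 0 → w.ord f = 0

/-- `w` is the Gauss extension of its restriction to `F = ℂ(a, b, r)`. -/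
def IsGauss (d : Dat K) (w : DVal K) : Prop :=
  w.ord d.c = 0 ∧ ∀ p : Polynomial (Fc d), (∀ i, w.Reg (p.coeff i : K)) →
    w.Pos (Polynomial.aeval d.c p) → ∀ i, w.Pos (p.coeff i : K)

/-- The filtration of the group of the elliptic curve given by an element `e` of the maximal ideal
of a valuation ring: two out of three. -/
def FilV {d : Dat K} (s : Sq d) : Prop :=
  ∀ V : ValuationSubring K, (∀ z : ℂ, algebraMap ℂ K z ∈ V) → ∀ e : K, e ≠ 0 → e ∈ V →
    e⁻¹ ∉ V → ∀ k : ℕ, 1 ≤ k →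
      ((s.y k)⁻¹ * e⁻¹ ∈ V → (s.y (k + 1))⁻¹ * e⁻¹ ∈ V → (s.y (k + 2))⁻¹ * e⁻¹ ∈ V) ∧
      ((s.y (k + 1))⁻¹ * e⁻¹ ∈ V → (s.y (k + 2))⁻¹ * e⁻¹ ∈ V → (s.y k)⁻¹ * e⁻¹ ∈ V) ∧
      ((s.y k)⁻¹ * e⁻¹ ∈ V → (s.y (k + 2))⁻¹ * e⁻¹ ∈ V → (s.y (k + 1))⁻¹ * e⁻¹ ∈ V)

/-- Generation of `K` by `y_k, y_{k+1}, c` and a cube root. -/
def GenAt {d : Dat K} (s : Sq d) (k : ℕ) : Prop :=
  ∃ r : K, r ^ 3 * (s.y (k + 1) ^ 2 - 1) = s.y k ^ 2 - 1 ∧
    ∀ f : K, ∃ g0 ∈ IntermediateField.adjoin ℂ ({s.y (k + 1), s.y k, d.c} : Set K),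
      ∃ g1 ∈ IntermediateField.adjoin ℂ ({s.y (k + 1), s.y k, d.c} : Set K),
      ∃ g2 ∈ IntermediateField.adjoin ℂ ({s.y (k + 1), s.y k, d.c} : Set K),
        f = g0 + g1 * r + g2 * r ^ 2

end Pool.Agent.TH202
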