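import Mathlib
import Pool.Agent.TH202.Cen
import Pool.Agent.TH126.C8_FG
import Pool.Agent.TH670.C8_HARTP
import Pool.Agent.TH84.C8_CONE

/-!
# Real divisors: Hartogs, nef divisors, domination
-/

set_option autoImplicit false

namespace Pool.Agent.TH202

open Pool.Agent.H436R3.Fol

variable {K : Type} [Field K] [Algebra ℂ K]

theorem dv_mem {g : K} (hg : g ≠ 0) : dv g ∈ Prin K := Submodule.subset_span ⟨g, hg, rfl⟩

theorem exists_rep {P : DVal K → ℝ} (hP : P ∈ Prin K) :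
    ∃ (m : ℕ) (r : Fin m → ℝ) (g : Fin m → K), (∀ i, g i ≠ 0) ∧
      ∀ v, P v = ∑ i, r i * (v.ord (g i) : ℝ) := by
  obtain ⟨m, r, g, h⟩ := Submodule.mem_span_set'.1 hP
  choose g' hg' hgg' using fun i => (g i).2
  refine ⟨m, r, g', hg', fun v => ?_⟩
  rw [← h, Finset.sum_apply]
  refine Finset.sum_congr rfl fun i _ => ?_
  rw [Pi.smul_apply, hgg' i]
  rfl

section

variable [Algebra.EssFiniteType ℂ K] {X : Model K}

theorem R_fg (i : Fin (X.n + 1)) : (X.R i).FG :=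
  Pool.Agent.TH126.C8_FG.integralClosure_fg _ (A_fg X i) (X.alg i)

theorem ord_zprod (v : DVal K) {m : ℕ} (g : Fin m → K) (hg : ∀ i, g i ≠ 0) (e : Fin m → ℤ) :
    v.ord (∏ i, g i ^ e i) = ∑ i, v.ord (g i) * e i := by
  rw [v.ord_prod _ _ fun i _ => zpow_ne_zero _ (hg i)]
  refine Finset.sum_congr rfl fun i _ => ?_
  rw [v.ord_zpow (hg i), mul_comm]

/-- A real principal divisor that is effective near a point of `X` has nonnegative order at all
valuations through the point. -/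
theorem real_hartogs (x : Pt X) {P : DVal K → ℝ} (hP : P ∈ Prin K)
    (h : ∀ w, IsPrimeOn X w → x.Thr w → 0 ≤ P w) (v : DVal K) (hv : x.Thr v) : 0 ≤ P v := by
  obtain ⟨m, r, g, hg, hPv⟩ := exists_rep hP
  rw [hPv]
  have hmain := Pool.Agent.TH84.C8_CONE.cone_approx (ι := {w : DVal K // IsLocalRing' (X.R x.i) w ∧ x.Thr w})
    (fun w i => w.1.ord (g i)) ?_ (fun i => v.ord (g i)) ?_ r ?_
  · calc (0 : ℝ) ≤ ∑ i, ((v.ord (g i) : ℤ) : ℝ) * r i := hmain
      _ = ∑ i, r i * (v.ord (g i) : ℝ) := Finset.sum_congr rfl fun i _ => mul_comm _ _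
  · -- finiteness
    choose Z hZ hZ' using fun i => Pool.Agent.TH670.C8_HARTP.finite_ord_ne (R_fg (X := X) x.i) (R_frac X x.i)
      (R_normal X x.i) (g i) (hg i)
    have hfin : (insert (0 : Fin m → ℤ) ((fun (w : DVal K) (i : Fin m) => w.ord (g i)) ''
        (⋃ i, Z i))).Finite :=
      ((Set.finite_iUnion hZ).image _).insert _
    refine hfin.subset ?_
    rintro _ ⟨w, rfl⟩
    by_cases h0 : ∀ i, w.1.ord (g i) = 0
    · left
      funext i
      exact h0 i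
    · push Not at h0
      obtain ⟨i, hi⟩ := h0
      obtain ⟨z, hz, hwz⟩ := hZ' i w.1 w.2.1 hi
      right
      refine ⟨z, Set.mem_iUnion.2 ⟨i, hz⟩, ?_⟩
      funext j
      exact (hwz _ (hg j)).symm
  · intro e he
    have hF0 : ∏ i, g i ^ e i ≠ 0 := Finset.prod_ne_zero_iff.2 fun i _ => zpow_ne_zero _ (hg i)
    have hF : x.Mem (∏ i, g i ^ e i) := by
      refine Pool.Agent.TH670.C8_HARTP.hartogs_local (R_fg (X := X) x.i) (R_frac X x.i) (R_normal X x.i) x.p x.prime ?_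
      intro w hw hwx
      right
      rw [ord_zprod w g hg]
      refine he ⟨w, hw, ?_⟩
      rw [Pt.thr_iff]
      exact ⟨hw.1, hwx⟩
    have h1 := (hv _ hF).resolve_left hF0
    rwa [ord_zprod v g hg] at h1
  · intro w
    have := h w.1 ⟨x.i, w.2.1⟩ w.2.2
    rw [hPv] at this
    calc (0 : ℝ) ≤ ∑ i, r i * (w.1.ord (g i) : ℝ) := this
      _ = ∑ i, ((w.1.ord (g i) : ℤ) : ℝ) * r i := Finset.sum_congr rfl fun i _ => mul_comm _ _

/-- An `ℝ`-Cartier divisor on `X` that is effective has nonnegative pull-backs. -/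
theorem rcar_nonneg {D : DVal K → ℝ} (hD : IsRCar X D) (h : ∀ w, IsPrimeOn X w → 0 ≤ D w)
    (v : DVal K) : 0 ≤ D v := by
  obtain ⟨x, hx, _, _⟩ := exists_cen X v
  obtain ⟨P, hP, hPD⟩ := hD x
  rw [hPD v hx]
  exact real_hartogs x hP (fun w hw hwx => by rw [← hPD w hwx]; exact h w hw) v hx

end

section rcar

variable {X : Model K}

theorem IsRCar.add {D E : DVal K → ℝ} (hD : IsRCar X D) (hE : IsRCar X E) :
    IsRCar X (D + E) := by
  intro x
  obtain ⟨P, hP, hPD⟩ := hD x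
  obtain ⟨Q, hQ, hQE⟩ := hE x
  exact ⟨P + Q, (Prin K).add_mem hP hQ, fun v hv => by
    rw [Pi.add_apply, Pi.add_apply, hPD v hv, hQE v hv]⟩

theorem IsRCar.smul {D : DVal K → ℝ} (hD : IsRCar X D) (c : ℝ) : IsRCar X (c • D) := by
  intro x
  obtain ⟨P, hP, hPD⟩ := hD x
  exact ⟨c • P, (Prin K).smul_mem c hP, fun v hv => by
    rw [Pi.smul_apply, Pi.smul_apply, hPD v hv]⟩

theorem IsRCar.neg {D : DVal K → ℝ} (hD : IsRCar X D) : IsRCar X (-D) := by
  have := hD.smul (-1)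
  rwa [neg_one_smul] at this

theorem IsRCar.sub {D E : DVal K → ℝ} (hD : IsRCar X D) (hE : IsRCar X E) :
    IsRCar X (D - E) := by
  rw [sub_eq_add_neg]
  exact hD.add hE.neg

theorem rcar_of_prin {P : DVal K → ℝ} (hP : P ∈ Prin K) : IsRCar X P :=
  fun _ => ⟨P, hP, fun _ _ => rfl⟩

theorem Lin_le {m : ℕ} (f : Fin (m + 1) → K) (v : DVal K) (j : Fin (m + 1)) :
    -(v.ord (f j) : ℝ) ≤ Lin f v :=
  Finset.le_sup' (fun j => -(v.ord (f j) : ℝ)) (Finset.mem_univ j)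

theorem exists_Lin {m : ℕ} (f : Fin (m + 1) → K) (v : DVal K) :
    ∃ j, Lin f v = -(v.ord (f j) : ℝ) := by
  obtain ⟨j, _, hj⟩ := Finset.exists_mem_eq_sup' Finset.univ_nonempty
    (fun j => -(v.ord (f j) : ℝ))
  exact ⟨j, hj⟩

theorem Lin_eq_of {m : ℕ} (f : Fin (m + 1) → K) (v : DVal K) (k : Fin (m + 1))
    (h : ∀ j, v.ord (f k) ≤ v.ord (f j)) : Lin f v = -(v.ord (f k) : ℝ) := by
  apply le_antisymm
  · refine Finset.sup'_le _ _ fun j _ => ?_
    have : (v.ord (f k) : ℝ) ≤ v.ord (f j) := by exact_mod_cast h j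
    linarith
  · exact Lin_le f v k

theorem Lin_le_iff {m : ℕ} (f : Fin (m + 1) → K) (v : DVal K) (t : ℝ) :
    Lin f v ≤ t ↔ ∀ j, -(v.ord (f j) : ℝ) ≤ t := by
  rw [Lin, Finset.sup'_le_iff]
  simp

theorem free_rcar {m : ℕ} {f : Fin (m + 1) → K} (hf : IsFree X f) : IsRCar X (Lin f) := by
  intro x
  obtain ⟨k, hk⟩ := hf.2 x
  refine ⟨-dv (f k), (Prin K).neg_mem (dv_mem (hf.1 k)), fun v hv => ?_⟩
  rw [Lin_eq_of f v k fun j => ?_]
  · rfl
  · have := (hv _ (hk j)).resolve_left (div_ne_zero (hf.1 j) (hf.1 k))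
    rw [v.ord_div (hf.1 j) (hf.1 k)] at this
    omega

theorem free_ξ (X : Model K) : IsFree X X.ξ :=
  ⟨X.ne, fun x => ⟨x.i, fun j => x.mem_of_R (ratio_mem_R X x.i j)⟩⟩

theorem rcar_H (X : Model K) : IsRCar X X.H := free_rcar (free_ξ X)

theorem Lin_mem {m : ℕ} {f : Fin (m + 1) → K} (hf : IsFree X f) : Lin f ∈ SFree X :=
  Submodule.subset_span ⟨m, f, hf, rfl⟩

/-- Nonnegative combinations of free divisors are suprema of real principal divisors. -/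
theorem sfree_touch {F : DVal K → ℝ} (hF : F ∈ SFree X) (u : DVal K) :
    ∃ P ∈ Prin K, (∀ v, P v ≤ F v) ∧ P u = F u := by
  refine Submodule.span_induction (p := fun F _ => ∃ P ∈ Prin K, (∀ v, P v ≤ F v) ∧ P u = F u)
    ?_ ?_ ?_ ?_ hF
  · rintro _ ⟨m, f, hf, rfl⟩
    obtain ⟨j, hj⟩ := exists_Lin f u
    exact ⟨-dv (f j), (Prin K).neg_mem (dv_mem (hf.1 j)), fun v => Lin_le f v j, hj.symm⟩
  · exact ⟨0, (Prin K).zero_mem, fun v => le_rfl, rfl⟩
  · rintro F G _ _ ⟨P, hP, hPF, hPu⟩ ⟨Q, hQ, hQG, hQu⟩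
    exact ⟨P + Q, (Prin K).add_mem hP hQ, fun v => add_le_add (hPF v) (hQG v), by
      rw [Pi.add_apply, Pi.add_apply, hPu, hQu]⟩
  · rintro c F _ ⟨P, hP, hPF, hPu⟩
    refine ⟨(c : ℝ) • P, (Prin K).smul_mem _ hP, fun v => ?_, ?_⟩
    · exact mul_le_mul_of_nonneg_left (hPF v) c.2
    · change (c : ℝ) * P u = (c : ℝ) * F u
      rw [hPu]

theorem nef_touch {D : DVal K → ℝ} (hD : IsNef X D) {δ : ℝ} (hδ : 0 < δ) (u : DVal K) :
    ∃ P ∈ Prin K, (∀ v, P v ≤ D v + δ * X.H v) ∧ P u = D u + δ * X.H u := by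
  obtain ⟨F, hF, Q, hQ, h⟩ := hD.2 δ hδ
  obtain ⟨P, hP, hPF, hPu⟩ := sfree_touch hF u
  refine ⟨P + Q, (Prin K).add_mem hP hQ, fun v => ?_, ?_⟩
  · rw [h v, Pi.add_apply]
    linarith [hPF v]
  · rw [h u, Pi.add_apply, hPu]

end rcar

end Pool.Agent.TH202
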