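import Mathlib
import Pool.Agent.TH202.RL

/-!
# Domination of nef divisors
-/

set_option autoImplicit false

namespace Pool.Agent.TH202

open Pool.Agent.H436R3.Fol

variable {K : Type} [Field K] [Algebra ℂ K] {X : Model K}

/-- The poles of `u` are bounded by `N` times the hyperplane section `ξ_0 = 0`. -/
def Bdd (X : Model K) (u : K) (N : ℕ) : Prop :=
  ∀ (v : DVal K) (i : Fin (X.n + 1)), (∀ j, v.ord (X.ξ i) ≤ v.ord (X.ξ j)) →
    v.Reg (u * (X.ξ 0 / X.ξ i) ^ N)

theorem reg_ratio {v : DVal K} {i : Fin (X.n + 1)} (h : ∀ j, v.ord (X.ξ i) ≤ v.ord (X.ξ j))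
    (j : Fin (X.n + 1)) : v.Reg (X.ξ j / X.ξ i) := by
  right
  rw [v.ord_div (X.ne j) (X.ne i)]
  have := h j
  omega

theorem reg_pow {v : DVal K} {f : K} (hf : v.Reg f) (n : ℕ) : v.Reg (f ^ n) := by
  induction n with
  | zero => rw [pow_zero]; exact v.reg_one
  | succ n ih => rw [pow_succ]; exact v.reg_mul ih hf

theorem Bdd.mono {u : K} {N M : ℕ} (h : Bdd X u N) (hNM : N ≤ M) : Bdd X u M := by
  intro v i hi
  obtain ⟨k, rfl⟩ := Nat.exists_eq_add_of_le hNM
  rw [pow_add, ← mul_assoc]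
  exact v.reg_mul (h v i hi) (reg_pow (reg_ratio hi 0) k)

theorem exists_bdd_A {u : K} (hu : u ∈ X.A 0) : ∃ N, Bdd X u N := by
  refine Algebra.adjoin_induction (p := fun u _ => ∃ N, Bdd X u N) ?_ ?_ ?_ ?_ hu
  · rintro _ ⟨j, rfl⟩
    refine ⟨1, fun v i hi => ?_⟩
    have : X.ξ j / X.ξ 0 * (X.ξ 0 / X.ξ i) ^ 1 = X.ξ j / X.ξ i := by
      have h0 := X.ne 0
      have hi0 := X.ne i
      field_simp
    change v.Reg (X.ξ j / X.ξ 0 * (X.ξ 0 / X.ξ i) ^ 1)
    rw [this]
    exact reg_ratio hi j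
  · intro c
    refine ⟨0, fun v i _ => ?_⟩
    rw [pow_zero, mul_one]
    exact v.reg_const c
  · rintro f g _ _ ⟨N, hN⟩ ⟨M, hM⟩
    refine ⟨N + M, fun v i hi => ?_⟩
    rw [add_mul]
    exact v.reg_add ((hN.mono (Nat.le_add_right N M)) v i hi)
      ((hM.mono (Nat.le_add_left M N)) v i hi)
  · rintro f g _ _ ⟨N, hN⟩ ⟨M, hM⟩
    refine ⟨N + M, fun v i hi => ?_⟩
    have : f * g * (X.ξ 0 / X.ξ i) ^ (N + M) =
        (f * (X.ξ 0 / X.ξ i) ^ N) * (g * (X.ξ 0 / X.ξ i) ^ M) := by ring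
    rw [this]
    exact v.reg_mul (hN v i hi) (hM v i hi)

theorem exists_bdd_R {u : K} (hu : u ∈ X.R 0) : ∃ N, Bdd X u N := by
  obtain ⟨p, hp, hpu⟩ := hu
  choose N hN using fun j : ℕ => exists_bdd_A (X := X) (p.coeff j).2
  refine ⟨∑ j ∈ Finset.range (p.natDegree + 1), N j, fun v i hi => ?_⟩
  set M := ∑ j ∈ Finset.range (p.natDegree + 1), N j with hM
  set s := (X.ξ 0 / X.ξ i) ^ M with hs
  have hsr : v.Reg s := reg_pow (reg_ratio hi 0) M
  set q : Polynomial K := p.map (algebraMap (X.A 0) K) with hq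
  have hqm : q.Monic := hp.map _
  refine reg_of_root v (q.scaleRoots s) (by rw [Polynomial.monic_scaleRoots_iff]; exact hqm)
    (fun j => ?_) ?_
  · rw [Polynomial.coeff_scaleRoots]
    by_cases hj0 : q.coeff j = 0
    · rw [hj0, zero_mul]; exact v.reg_zero
    have hj2 : j ≤ q.natDegree := Polynomial.le_natDegree_of_ne_zero hj0
    rcases hj2.eq_or_lt with rfl | hj3
    · rw [Nat.sub_self, pow_zero, mul_one, hqm.coeff_natDegree]
      exact v.reg_one
    · obtain ⟨k, hk⟩ : ∃ k, q.natDegree - j = k + 1 := ⟨q.natDegree - j - 1, by omega⟩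
      rw [hk, pow_succ', ← mul_assoc]
      refine v.reg_mul ?_ (reg_pow hsr k)
      have hjm : j ∈ Finset.range (p.natDegree + 1) := by
        rw [Finset.mem_range]
        have : q.natDegree ≤ p.natDegree := Polynomial.natDegree_map_le
        omega
      have hNM : N j ≤ M := Finset.single_le_sum (f := N) (fun _ _ => Nat.zero_le _) hjm
      have h1 := (hN j).mono hNM v i hi
      rw [hq, Polynomial.coeff_map]
      exact h1
  · rw [mul_comm, Polynomial.scaleRoots_eval_mul]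
    have : q.eval u = 0 := by
      rw [hq, Polynomial.eval_map]
      exact hpu
    rw [this, mul_zero]

theorem H_eq_of (X : Model K) {v : DVal K} {i : Fin (X.n + 1)}
    (h : ∀ j, v.ord (X.ξ i) ≤ v.ord (X.ξ j)) : X.H v = -(v.ord (X.ξ i) : ℝ) :=
  Lin_eq_of X.ξ v i h

/-- Every linear system is dominated by a multiple of the hyperplane class. -/
theorem exists_bound (X : Model K) {m : ℕ} (f : Fin (m + 1) → K) (hf : ∀ j, f j ≠ 0) :
    ∃ (N : ℕ) (s : K), s ≠ 0 ∧ ∀ v, Lin f v ≤ N * X.H v + (v.ord s : ℝ) := by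
  choose a b ha hb hb0 hab using fun j => R_frac X 0 (f j)
  have hmem : ∀ j, f j * ∏ k, b k ∈ X.R 0 := by
    intro j
    rw [← Finset.mul_prod_erase Finset.univ b (Finset.mem_univ j), ← mul_assoc, hab j]
    exact mul_mem (ha j) (Subalgebra.prod_mem _ fun k _ => hb k)
  choose N hN using fun j => exists_bdd_R (hmem j)
  have hB : ∏ k, b k ≠ 0 := Finset.prod_ne_zero_iff.2 fun k _ => hb0 k
  refine ⟨∑ j, N j, X.ξ 0 ^ (∑ j, N j) * ∏ k, b k,
    mul_ne_zero (pow_ne_zero _ (X.ne 0)) hB, fun v => ?_⟩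
  obtain ⟨i, hi, _⟩ := exists_chart X v
  rw [Lin_le_iff]
  intro j
  have h1 := (hN j).mono (Finset.single_le_sum (f := N) (fun _ _ => Nat.zero_le _)
    (Finset.mem_univ j)) v i hi
  have hr : (X.ξ 0 / X.ξ i) ≠ 0 := div_ne_zero (X.ne 0) (X.ne i)
  have h2 := h1.resolve_left (mul_ne_zero (mul_ne_zero (hf j) hB) (pow_ne_zero _ hr))
  rw [v.map_mul _ _ (mul_ne_zero (hf j) hB) (pow_ne_zero _ hr), v.map_mul _ _ (hf j) hB,
    v.ord_pow hr, v.ord_div (X.ne 0) (X.ne i)] at h2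
  rw [H_eq_of X hi, v.map_mul _ _ (pow_ne_zero _ (X.ne 0)) hB, v.ord_pow (X.ne 0)]
  have h3 : (0 : ℝ) ≤ ((v.ord (f j) + v.ord (∏ k, b k) +
    ((∑ j, N j : ℕ) : ℤ) * (v.ord (X.ξ 0) - v.ord (X.ξ i)) : ℤ) : ℝ) := by exact_mod_cast h2
  push_cast at h3 ⊢
  nlinarith [h3]

/-- A nef divisor is dominated by an `ℝ`-Cartier divisor on another model if this holds on the prime
divisors of that model. -/
theorem dom [Algebra.EssFiniteType ℂ K] {X Y : Model K} {N D : DVal K → ℝ} (hN : IsNef X N)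
    (hD : IsRCar Y D) (h : ∀ w, IsPrimeOn Y w → N w ≤ D w) (v : DVal K) : N v ≤ D v := by
  obtain ⟨n, s, hs, hb⟩ := exists_bound Y X.ξ X.ne
  have key : ∀ δ : ℝ, 0 < δ →
      N v ≤ D v + δ * (n * Y.H v + (v.ord s : ℝ) - X.H v) := by
    intro δ hδ
    obtain ⟨P, hP, hPle, hPv⟩ := nef_touch hN hδ v
    have hE : IsRCar Y (D + δ • ((n : ℝ) • Y.H + dv s) - P) :=
      (hD.add ((((rcar_H Y).smul _).add (rcar_of_prin (dv_mem hs))).smul δ)).sub (rcar_of_prin hP)
    have h1 := rcar_nonneg hE (fun w hw => ?_) v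
    · simp only [Pi.sub_apply, Pi.add_apply, Pi.smul_apply, smul_eq_mul, dv] at h1
      rw [hPv] at h1
      linarith
    · simp only [Pi.sub_apply, Pi.add_apply, Pi.smul_apply, smul_eq_mul, dv]
      have h2 := hPle w
      have h3 := h w hw
      have h4 : X.H w ≤ n * Y.H w + (w.ord s : ℝ) := hb w
      have h5 := mul_le_mul_of_nonneg_left h4 hδ.le
      linarith
  by_contra hc
  push Not at hc
  set C := n * Y.H v + (v.ord s : ℝ) - X.H v with hC
  have h1 := key ((N v - D v) / (2 * (|C| + 1))) (div_pos (by linarith) (by positivity))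
  have h2 : (N v - D v) / (2 * (|C| + 1)) * C ≤ (N v - D v) / 2 := by
    have h3 : (N v - D v) / (2 * (|C| + 1)) * C ≤ (N v - D v) / (2 * (|C| + 1)) * (|C| + 1) :=
      mul_le_mul_of_nonneg_left (by linarith [le_abs_self C]) (div_nonneg (by linarith) (by positivity))
    have h4 : (N v - D v) / (2 * (|C| + 1)) * (|C| + 1) = (N v - D v) / 2 := by
      have : |C| + 1 ≠ 0 := by positivity
      field_simp
    linarith
  linarith

end Pool.Agent.TH202
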