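import Mathlib
import Pool.Agent.TH202.RL
import Pool.Agent.TH202.Ex
import Pool.Agent.TH761.C8_POLY
import Pool.Agent.TH864.C8_TRACE

/-!
# The norm argument
-/

set_option autoImplicit false

namespace Pool.Agent.TH202

open Pool.Agent.H436R3.Fol MvPolynomial

theorem finite_of_alg {F K : Type} [Field F] [Field K] [Algebra F K]
    [Algebra.EssFiniteType F K] [Algebra.IsAlgebraic F K] : FiniteDimensional F K := by
  obtain ⟨t, ht⟩ := IntermediateField.fg_top F K
  have := IntermediateField.finiteDimensional_adjoin (K := F) (L := K) (S := (t : Set K))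
    fun x _ => (Algebra.IsAlgebraic.isAlgebraic x).isIntegral
  refine Module.Finite.of_surjective
    (IntermediateField.adjoin F (t : Set K)).val.toLinearMap fun x => ⟨⟨x, ?_⟩, rfl⟩
  rw [ht]
  exact IntermediateField.mem_top

theorem ng_nonneg (x : ℤ) : 0 ≤ ng x := le_max_left _ _
theorem ps_nonneg (x : ℤ) : 0 ≤ ps x := le_max_left _ _

theorem ng_zero : ng 0 = 0 := by simp [ng]
theorem ps_zero : ps 0 = 0 := by simp [ps]

theorem ng_of_nonneg {x : ℤ} (h : 0 ≤ x) : ng x = 0 := by
  have : (0 : ℝ) ≤ x := by exact_mod_cast h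
  rw [ng, max_eq_left]
  linarith

theorem ng_of_nonpos {x : ℤ} (h : x ≤ 0) : ng x = -x := by
  have : (x : ℝ) ≤ 0 := by exact_mod_cast h
  rw [ng, max_eq_right]
  linarith

theorem ps_of_nonneg {x : ℤ} (h : 0 ≤ x) : ps x = x := by
  have : (0 : ℝ) ≤ x := by exact_mod_cast h
  rw [ps, max_eq_right this]

theorem ps_of_nonpos {x : ℤ} (h : x ≤ 0) : ps x = 0 := by
  have : (x : ℝ) ≤ 0 := by exact_mod_cast h
  rw [ps, max_eq_left this]

/-- The norm argument. -/
theorem norm_lemma {K : Type} [Field K] [Algebra ℂ K] [Algebra.EssFiniteType ℂ K] (a b c : K)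
    (hind : AlgebraicIndependent ℂ ![a, b, c])
    (halg : ∀ f : K, IsAlgebraic (Algebra.adjoin ℂ (Set.range ![a, b, c])) f)
    {P : DVal K → ℝ} (hP : P ∈ Prin K) (α γ m η : ℝ)
    (h1 : ∀ v : DVal K, 0 ≤ α * (ng (v.ord a) + ng (v.ord b)) + γ * ng (v.ord c)
      + m * ps (v.ord c) + P v)
    (h2 : ∀ v : DVal K, 0 < v.ord c → v.ord a = v.ord c → v.ord b = v.ord c → 0 ≤ P v)
    (h3 : ∀ v : DVal K, (∀ q : MvPolynomial (Fin 2) ℂ, q ≠ 0 → v.ord (aeval ![a, b] q) = 0) →
      0 < v.ord c → P v ≤ (η - m) * v.ord c) : m - η ≤ 2 * α := by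
  let B := MvPolynomial (Fin 3) ℂ
  let F := FractionRing B
  let φ : B →ₐ[ℂ] K := aeval ![a, b, c]
  have hφ : Function.Injective φ := hind
  let ψ : F →ₐ[ℂ] K := IsFractionRing.liftAlgHom (g := φ) hφ
  let _ : Algebra F K := ψ.toRingHom.toAlgebra
  have hψ : ∀ f : F, algebraMap F K f = ψ f := fun f => rfl
  have : IsScalarTower ℂ F K := IsScalarTower.of_algebraMap_eq fun x => (ψ.commutes x).symm
  have hψB : ∀ q : B, algebraMap F K (algebraMap B F q) = aeval ![a, b, c] q := by
    intro q
    rw [hψ]
    exact IsFractionRing.lift_algebraMap hφ q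
  have : Algebra.EssFiniteType F K := Algebra.EssFiniteType.of_comp ℂ F K
  have : Algebra.IsAlgebraic F K := by
    constructor
    intro f
    have hle : ∀ z : Algebra.adjoin ℂ (Set.range ![a, b, c]), ∃ y : F, algebraMap F K y = z := by
      rintro ⟨z, hz⟩
      rw [Algebra.adjoin_range_eq_range_aeval] at hz
      obtain ⟨q, hq⟩ := hz
      exact ⟨algebraMap B F q, by rw [hψB]; exact hq⟩
    obtain ⟨p, hp, hpf⟩ := halg f
    choose u hu using hle
    have hmem : ∀ z : Algebra.adjoin ℂ (Set.range ![a, b, c]), z = 0 ↔ u z = 0 := by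
      intro z
      constructor
      · intro hz
        have h4 := hu z
        rw [hz] at h4
        have h5 : algebraMap F K (u z) = 0 := by rw [hz]; exact h4
        exact (map_eq_zero_iff _ (algebraMap F K).injective).1 h5
      · intro hz
        have h4 := hu z
        rw [hz, map_zero] at h4
        exact Subtype.ext h4.symm
    let θ : Algebra.adjoin ℂ (Set.range ![a, b, c]) →+* F :=
      { toFun := u
        map_one' := (algebraMap F K).injective (by rw [hu, map_one]; rfl)
        map_zero' := (hmem 0).1 rfl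
        map_mul' := fun x y => (algebraMap F K).injective (by rw [map_mul, hu, hu, hu]; rfl)
        map_add' := fun x y => (algebraMap F K).injective (by rw [map_add, hu, hu, hu]; rfl) }
    have hθ : (algebraMap F K).comp θ = algebraMap (Algebra.adjoin ℂ (Set.range ![a, b, c])) K := by
      ext z
      exact hu z
    refine ⟨p.map θ, ?_, ?_⟩
    · intro h0
      apply hp
      have hinj : Function.Injective θ := by
        intro x y hxy
        have h4 : algebraMap F K (θ x) = algebraMap F K (θ y) := by rw [hxy]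
        change algebraMap F K (u x) = algebraMap F K (u y) at h4
        rw [hu, hu] at h4
        exact Subtype.ext h4
      exact (Polynomial.map_eq_zero_iff hinj).1 h0
    · rw [Polynomial.aeval_def, Polynomial.eval₂_map, hθ]
      exact hpf
  have : FiniteDimensional F K := finite_of_alg
  obtain ⟨g, hg, htr⟩ := Pool.Agent.TH864.C8_TRACE.exists_norm (F := F) (K := K)
  obtain ⟨P', hP', hw⟩ := htr P hP
  have ha : algebraMap F K (algebraMap B F (X 0)) = a := by rw [hψB, aeval_X]; rfl
  have hb : algebraMap F K (algebraMap B F (X 1)) = b := by rw [hψB, aeval_X]; rfl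
  have hc : algebraMap F K (algebraMap B F (X 2)) = c := by rw [hψB, aeval_X]; rfl
  have hX : ∀ i : Fin 3, algebraMap B F (X i) ≠ 0 := fun i =>
    (map_ne_zero_iff _ (IsFractionRing.injective B F)).2 (X_ne_zero _)
  have hgR : (0 : ℝ) < g := by exact_mod_cast hg
  have hmain := Pool.Agent.TH761.C8_POLY.poly_level (F := F) (fun i => algebraMap B F (X i)) (fun _ => rfl) P' hP'
    (g * α) (g * (m - η)) ?_ ?_ ?_ ?_ ?_
  · have : (g : ℝ) * (m - η) ≤ g * (2 * α) := by linarith
    exact le_of_mul_le_mul_left this hgR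
  · intro π hπ hπ2
    obtain ⟨e, s, k, he, hk, hsk, hsum⟩ := hw (valP F π hπ)
    have h0 : ∀ i, 0 ≤ (k i : ℝ) * P (s i) := by
      intro i
      have hki : (0 : ℤ) < k i := by exact_mod_cast hk i
      have e1 := hsk i _ (hX 0)
      have e2 := hsk i _ (hX 1)
      have e3 := hsk i _ (hX 2)
      rw [ha] at e1
      rw [hb] at e2
      rw [hc] at e3
      have o1 : 0 ≤ (valP F π hπ).ord (algebraMap B F (X 0)) := by
        rw [valP_ord hπ (X_ne_zero _)]; omega
      have o2 : 0 ≤ (valP F π hπ).ord (algebraMap B F (X 1)) := by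
        rw [valP_ord hπ (X_ne_zero _)]; omega
      have o3 : (valP F π hπ).ord (algebraMap B F (X 2)) = 0 := by
        rw [valP_ord hπ (X_ne_zero _), multiplicity_eq_zero.2 hπ2]; rfl
      have p1 : 0 ≤ (s i).ord a := by
        by_contra hc'
        push Not at hc'
        have := mul_neg_of_pos_of_neg hki hc'
        have h5 : (0 : ℤ) ≤ e * (valP F π hπ).ord (algebraMap B F (X 0)) :=
          mul_nonneg (Int.natCast_nonneg _) o1
        omega
      have p2 : 0 ≤ (s i).ord b := by
        by_contra hc'
        push Not at hc'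
        have := mul_neg_of_pos_of_neg hki hc'
        have h5 : (0 : ℤ) ≤ e * (valP F π hπ).ord (algebraMap B F (X 1)) :=
          mul_nonneg (Int.natCast_nonneg _) o2
        omega
      have p3 : (s i).ord c = 0 := by
        rw [o3, mul_zero] at e3
        exact (mul_eq_zero.1 e3).resolve_left hki.ne'
      have := h1 (s i)
      rw [ng_of_nonneg p1, ng_of_nonneg p2, p3, ng_zero, ps_zero] at this
      have hkR : (0 : ℝ) ≤ k i := Nat.cast_nonneg _
      exact mul_nonneg hkR (by linarith)
    have h5 := Finset.sum_nonneg fun i (_ : i ∈ Finset.univ) => h0 i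
    rw [hsum] at h5
    have heR : (0 : ℝ) < e := by exact_mod_cast he
    exact nonneg_of_mul_nonneg_right h5 heR
  · intro w o1 o2 o3
    obtain ⟨e, s, k, he, hk, hsk, hsum⟩ := hw w
    have h0 : ∀ i, -(α * e) ≤ (k i : ℝ) * P (s i) := by
      intro i
      have hki : (0 : ℤ) < k i := by exact_mod_cast hk i
      have e1 := hsk i _ (hX 0)
      have e2 := hsk i _ (hX 1)
      have e3 := hsk i _ (hX 2)
      rw [ha, o1] at e1
      rw [hb, o2, mul_zero] at e2
      rw [hc, o3, mul_zero] at e3
      have p2 : (s i).ord b = 0 := (mul_eq_zero.1 e2).resolve_left hki.ne'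
      have p3 : (s i).ord c = 0 := (mul_eq_zero.1 e3).resolve_left hki.ne'
      have p1 : (s i).ord a ≤ 0 := by
        by_contra hc'
        push Not at hc'
        have := mul_pos hki hc'
        omega
      have := h1 (s i)
      rw [p2, p3, ng_zero, ps_zero, ng_of_nonpos p1] at this
      have hkR : (0 : ℝ) < k i := by exact_mod_cast hk i
      have e1R : (k i : ℝ) * ((s i).ord a : ℝ) = -e := by
        have : ((k i : ℤ) : ℝ) * (((s i).ord a : ℤ) : ℝ) = (((e : ℤ) * (-1) : ℤ) : ℝ) := by
          rw [← e1]; push_cast; ring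
        push_cast at this
        linarith
      have h6 : 0 ≤ (k i : ℝ) * (α * (-((s i).ord a : ℝ) + 0) + γ * 0 + m * 0 + P (s i)) :=
        mul_nonneg hkR.le this
      have h7 : (k i : ℝ) * (α * (-((s i).ord a : ℝ) + 0) + γ * 0 + m * 0 + P (s i)) =
          -(α * ((k i : ℝ) * ((s i).ord a : ℝ))) + (k i : ℝ) * P (s i) := by ring
      rw [h7, e1R] at h6
      linarith
    have h5 := Finset.sum_le_sum fun i (_ : i ∈ Finset.univ) => h0 i
    rw [hsum, Finset.sum_const, Finset.card_univ, Fintype.card_fin, nsmul_eq_mul] at h5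
    have heR : (0 : ℝ) < e := by exact_mod_cast he
    have h6 : (e : ℝ) * (-(g * α)) ≤ e * P' w := by linarith
    exact le_of_mul_le_mul_left h6 heR
  · intro w o1 o2 o3
    obtain ⟨e, s, k, he, hk, hsk, hsum⟩ := hw w
    have h0 : ∀ i, -(α * e) ≤ (k i : ℝ) * P (s i) := by
      intro i
      have hki : (0 : ℤ) < k i := by exact_mod_cast hk i
      have e1 := hsk i _ (hX 0)
      have e2 := hsk i _ (hX 1)
      have e3 := hsk i _ (hX 2)
      rw [ha, o1, mul_zero] at e1
      rw [hb, o2] at e2
      rw [hc, o3, mul_zero] at e3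
      have p2 : (s i).ord a = 0 := (mul_eq_zero.1 e1).resolve_left hki.ne'
      have p3 : (s i).ord c = 0 := (mul_eq_zero.1 e3).resolve_left hki.ne'
      have p1 : (s i).ord b ≤ 0 := by
        by_contra hc'
        push Not at hc'
        have := mul_pos hki hc'
        omega
      have := h1 (s i)
      rw [p2, p3, ng_zero, ps_zero, ng_of_nonpos p1] at this
      have hkR : (0 : ℝ) < k i := by exact_mod_cast hk i
      have e1R : (k i : ℝ) * ((s i).ord b : ℝ) = -e := by
        have : ((k i : ℤ) : ℝ) * (((s i).ord b : ℤ) : ℝ) = (((e : ℤ) * (-1) : ℤ) : ℝ) := by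
          rw [← e2]; push_cast; ring
        push_cast at this
        linarith
      have h6 : 0 ≤ (k i : ℝ) * (α * (0 + -((s i).ord b : ℝ)) + γ * 0 + m * 0 + P (s i)) :=
        mul_nonneg hkR.le this
      have h7 : (k i : ℝ) * (α * (0 + -((s i).ord b : ℝ)) + γ * 0 + m * 0 + P (s i)) =
          -(α * ((k i : ℝ) * ((s i).ord b : ℝ))) + (k i : ℝ) * P (s i) := by ring
      rw [h7, e1R] at h6
      linarith
    have h5 := Finset.sum_le_sum fun i (_ : i ∈ Finset.univ) => h0 i
    rw [hsum, Finset.sum_const, Finset.card_univ, Fintype.card_fin, nsmul_eq_mul] at h5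
    have heR : (0 : ℝ) < e := by exact_mod_cast he
    have h6 : (e : ℝ) * (-(g * α)) ≤ e * P' w := by linarith
    exact le_of_mul_le_mul_left h6 heR
  · intro w o1 o2 o3
    obtain ⟨e, s, k, he, hk, hsk, hsum⟩ := hw w
    have heR : (0 : ℝ) < e := by exact_mod_cast he
    have heZ : (0 : ℤ) < e := by exact_mod_cast he
    have h0 : ∀ i, 0 ≤ (k i : ℝ) * P (s i) := by
      intro i
      have hki : (0 : ℤ) < k i := by exact_mod_cast hk i
      have e1 := hsk i _ (hX 0)
      have e2 := hsk i _ (hX 1)
      have e3 := hsk i _ (hX 2)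
      rw [ha, o1, mul_one] at e1
      rw [hb, o2, mul_one] at e2
      rw [hc, o3, mul_one] at e3
      have q1 : (s i).ord a = (s i).ord c := by
        have : (k i : ℤ) * (s i).ord a = (k i : ℤ) * (s i).ord c := by rw [e1, e3]
        exact mul_left_cancel₀ hki.ne' this
      have q2 : (s i).ord b = (s i).ord c := by
        have : (k i : ℤ) * (s i).ord b = (k i : ℤ) * (s i).ord c := by rw [e2, e3]
        exact mul_left_cancel₀ hki.ne' this
      have q3 : 0 < (s i).ord c := by
        by_contra hc'
        push Not at hc'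
        have := mul_nonpos_of_nonneg_of_nonpos hki.le hc'
        omega
      exact mul_nonneg (Nat.cast_nonneg _) (h2 (s i) q3 q1 q2)
    have h5 := Finset.sum_nonneg fun i (_ : i ∈ Finset.univ) => h0 i
    rw [hsum] at h5
    exact nonneg_of_mul_nonneg_right h5 heR
  · intro hX2
    obtain ⟨e, s, k, he, hk, hsk, hsum⟩ := hw (valP F (X 2) hX2)
    have heR : (0 : ℝ) < e := by exact_mod_cast he
    have heZ : (0 : ℤ) < e := by exact_mod_cast he
    have h0 : ∀ i, (k i : ℝ) * P (s i) ≤ (η - m) * e := by
      intro i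
      have hki : (0 : ℤ) < k i := by exact_mod_cast hk i
      have hkR : (0 : ℝ) < k i := by exact_mod_cast hk i
      have e3 := hsk i _ (hX 2)
      have o3 : (valP F (X 2) hX2).ord (algebraMap B F (X 2)) = 1 := by
        rw [valP_ord hX2 (X_ne_zero _), multiplicity_self]; rfl
      rw [hc, o3, mul_one] at e3
      have q3 : 0 < (s i).ord c := by
        by_contra hc'
        push Not at hc'
        have := mul_nonpos_of_nonneg_of_nonpos hki.le hc'
        omega
      have q4 : ∀ q : MvPolynomial (Fin 2) ℂ, q ≠ 0 → (s i).ord (aeval ![a, b] q) = 0 := by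
        intro q hq
        have hr : rename (Fin.castSucc : Fin 2 → Fin 3) q ≠ 0 := by
          rw [Ne, map_eq_zero_iff _ (rename_injective _ (Fin.castSucc_injective 2))]
          exact hq
        have h6 := hsk i (algebraMap B F (rename (Fin.castSucc : Fin 2 → Fin 3) q))
          ((map_ne_zero_iff _ (IsFractionRing.injective B F)).2 hr)
        rw [hψB, aeval_rename] at h6
        have h7 : (![a, b, c] ∘ (Fin.castSucc : Fin 2 → Fin 3)) = ![a, b] := by
          funext j
          fin_cases j <;> rfl
        rw [h7] at h6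
        have h8 : ¬ (X 2 : B) ∣ rename (Fin.castSucc : Fin 2 → Fin 3) q := by
          rintro ⟨t, ht⟩
          have h9 := congrArg (aeval (![X 0, X 1, 0] : Fin 3 → MvPolynomial (Fin 2) ℂ)) ht
          rw [map_mul, aeval_X, aeval_rename] at h9
          have h10 : ((![X 0, X 1, 0] : Fin 3 → MvPolynomial (Fin 2) ℂ) ∘
              (Fin.castSucc : Fin 2 → Fin 3)) = X := by
            funext j
            fin_cases j <;> rfl
          rw [h10, aeval_X_left_apply] at h9
          apply hq
          rw [h9]
          simp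
        rw [valP_ord hX2 hr, multiplicity_eq_zero.2 h8, Nat.cast_zero, mul_zero] at h6
        exact (mul_eq_zero.1 h6).resolve_left hki.ne'
      have h6 := h3 (s i) q4 q3
      have h7 := mul_le_mul_of_nonneg_left h6 hkR.le
      have e3R : (k i : ℝ) * ((s i).ord c : ℝ) = e := by exact_mod_cast e3
      calc (k i : ℝ) * P (s i) ≤ k i * ((η - m) * (s i).ord c) := h7
        _ = (η - m) * (k i * (s i).ord c) := by ring
        _ = (η - m) * e := by rw [e3R]
    have h5 := Finset.sum_le_sum fun i (_ : i ∈ Finset.univ) => h0 i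
    rw [hsum, Finset.sum_const, Finset.card_univ, Fintype.card_fin, nsmul_eq_mul] at h5
    have h6 : (e : ℝ) * P' (valP F (X 2) hX2) ≤ e * (-(g * (m - η))) := by linarith
    exact le_of_mul_le_mul_left h6 heR

end Pool.Agent.TH202
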