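import Mathlib
import Pool.Agent.TH202.Dom
import Pool.Agent.TH202.Norm
import Pool.Agent.TH202.Alg
import Pool.Agent.TH551.C8_XM1
import Pool.Agent.TH573.C8_NEFA
import Pool.Agent.TH246.C8_POS

/-!
# The strict transform of `c = 0` is not a component of the positive part
-/

set_option autoImplicit false

namespace Pool.Agent.TH202

open Pool.Agent.H436R3.Fol MvPolynomial

variable {K : Type} [Field K] [Algebra ℂ K]

theorem Sb_le (d : Dat K) (v : DVal K) : Sb d v ≤ ps (v.ord d.c) := by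
  have : 0 ≤ mn d v := le_max_left _ _
  rw [Sb]
  linarith

theorem Sb_nonneg (d : Dat K) (v : DVal K) : 0 ≤ Sb d v := by
  rw [Sb, mn, ps, sub_nonneg]
  apply max_le_max_left
  exact (min_le_right _ _).trans (min_le_right _ _)

theorem ng_eq_max {K : Type} [Field K] [Algebra ℂ K] (f : K) (v : DVal K) :
    ng (v.ord f) = max 0 (-(v.ord f : ℝ)) := rfl

/-- The auxiliary model given by three algebraically independent functions. -/
noncomputable def Zm (a b c : K) (ha : a ≠ 0) (hb : b ≠ 0) (hc : c ≠ 0)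
    (halg : ∀ f : K, IsAlgebraic (Algebra.adjoin ℂ (Set.range ![a, b, c])) f) : Model K where
  n := 3
  ξ := ![1, a, b, c]
  ne := by
    intro j
    fin_cases j <;> simp [ha, hb, hc]
  alg := by
    refine alg_of_zero _ ?_ fun f => ?_
    · intro j
      fin_cases j <;> simp [ha, hb, hc]
    · refine alg_mono ?_ (halg f)
      rintro _ ⟨j, rfl⟩
      apply IntermediateField.subset_adjoin
      refine ⟨j.succ, ?_⟩
      fin_cases j <;> simp

theorem Zm_H_le (a b c : K) (ha : a ≠ 0) (hb : b ≠ 0) (hc : c ≠ 0)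
    (halg : ∀ f : K, IsAlgebraic (Algebra.adjoin ℂ (Set.range ![a, b, c])) f) (v : DVal K) :
    (Zm a b c ha hb hc halg).H v ≤ ng (v.ord a) + ng (v.ord b) + ng (v.ord c) := by
  have h : (Zm a b c ha hb hc halg).H v = Lin (m := 3) ![1, a, b, c] v := rfl
  rw [h, Lin_le_iff]
  have h1 := ng_nonneg (v.ord a)
  have h2 := ng_nonneg (v.ord b)
  have h3 := ng_nonneg (v.ord c)
  have h1' : -(v.ord a : ℝ) ≤ ng (v.ord a) := le_max_right _ _
  have h2' : -(v.ord b : ℝ) ≤ ng (v.ord b) := le_max_right _ _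
  have h3' : -(v.ord c : ℝ) ≤ ng (v.ord c) := le_max_right _ _
  intro j
  fin_cases j
  · change -(v.ord 1 : ℝ) ≤ _
    rw [v.ord_one]
    simp
    linarith
  · change -(v.ord a : ℝ) ≤ _
    linarith
  · change -(v.ord b : ℝ) ≤ _
    linarith
  · change -(v.ord c : ℝ) ≤ _
    linarith

theorem ps_inv (v : DVal K) {y : K} (hy : y ≠ 0) :
    max 0 (-(v.ord y : ℝ)) = (v.ord y⁻¹ : ℝ) + ng (v.ord y⁻¹) := by
  rw [ng, v.ord_inv hy]
  push_cast
  rw [neg_neg]
  rcases le_total (v.ord y : ℝ) 0 with h | h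
  · rw [max_eq_right (by linarith), max_eq_left h]
    ring
  · rw [max_eq_left (by linarith), max_eq_right h]
    ring

theorem ps_eq (x : ℤ) : ps x = x + ng x := by
  rw [ps, ng]
  rcases le_total (x : ℝ) 0 with h | h
  · rw [max_eq_left h, max_eq_right (by linarith)]
    ring
  · rw [max_eq_right h, max_eq_left (by linarith)]
    ring

theorem rcar_Sb (d : Dat K) (h : XiAlg d) : IsRCar (Xd d h) (Sb d) := by
  have e : Sb d = dv d.c - Lin (m := 1) ![1, d.a] - Lin (m := 1) ![1, d.b] +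
      Lin (m := 6) ![d.a, d.b, d.c, d.a * d.b, d.b * d.c, d.a * d.c, d.a * d.b * d.c] := by
    funext v
    simp only [Pi.add_apply, Pi.sub_apply]
    rw [Pool.Agent.TH551.C8_XM1.Lin_one, Pool.Agent.TH551.C8_XM1.Lin_one, Pool.Agent.TH551.C8_XM1.Lin_seven, Sb, ps_eq]
    simp only [dv]
    ring
  rw [e]
  exact (((rcar_of_prin (dv_mem d.c_ne)).sub (free_rcar (Pool.Agent.TH551.C8_XM1.free_a d h))).sub
    (free_rcar (Pool.Agent.TH551.C8_XM1.free_b d h))).add (free_rcar (Pool.Agent.TH551.C8_XM1.free_seven d h))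

theorem prin_congr {v w : DVal K} (h : ∀ f, f ≠ 0 → v.ord f = w.ord f) {P : DVal K → ℝ}
    (hP : P ∈ Prin K) : P v = P w := by
  obtain ⟨m, r, g, hg, hPv⟩ := exists_rep hP
  rw [hPv, hPv]
  exact Finset.sum_congr rfl fun i _ => by rw [h _ (hg i)]

theorem Th_nonneg {d : Dat K} (s : Sq d) (k : ℕ) (v : DVal K) : 0 ≤ Th s k v := by
  rw [Pool.Agent.TH573.C8_NEFA.Th_eq]
  exact le_max_left _ _

/-- The positive part does not contain the strict transform of `c = 0`. -/
theorem c_step [Algebra.EssFiniteType ℂ K] {d : Dat K} (h : XiAlg d) (s : Sq d) (vS : DVal K)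
    (hvS : IsS d vS) (hvc : vS.ord d.c = 1)
    (huniq : ∀ v' : DVal K, IsS d v' → ∀ f, f ≠ 0 → v'.ord f = vS.ord f)
    (Y : Model K) (N : DVal K → ℝ) (hN : IsNef Y N) (n : ℝ) (hn : n = N vS)
    (hle : ∀ w, IsPrimeOn (Xd d h) w → N w ≤ bet s w + n * Sb d w) : n ≤ 0 := by
  by_contra hn0
  push Not at hn0
  set X := Xd d h with hX
  obtain ⟨n1, s1, hs1, hb1⟩ := exists_bound X Y.ξ Y.ne
  have hbetR : IsRCar X (bet s) := (Pool.Agent.TH246.C8_POS.bet_nef h s).1
  -- choose the approximation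
  obtain ⟨k, hk1, g, e, hg0, hg, he0, he, hQ⟩ := Pool.Agent.TH573.C8_NEFA.bet_approx s (n / 8) (by linarith)
  set Q := bet s + e • Ak s 1 - g • Ak s (k + 1) with hQdef
  set a' := (s.y (k + 2))⁻¹ with ha'
  set b' := (s.y (k + 1))⁻¹ with hb'
  have hya : s.y (k + 2) ≠ 0 := s.y_ne _
  have hyb : s.y (k + 1) ≠ 0 := s.y_ne _
  have ha0 : a' ≠ 0 := inv_ne_zero hya
  have hb0 : b' ≠ 0 := inv_ne_zero hyb
  have hind : AlgebraicIndependent ℂ ![a', b', d.c] := s.ind (k + 1) (by omega)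
  have halg : ∀ f : K, IsAlgebraic (Algebra.adjoin ℂ (Set.range ![a', b', d.c])) f :=
    s.alg (k + 1) (by omega)
  set Z := Zm a' b' d.c ha0 hb0 d.c_ne halg with hZ
  obtain ⟨n2, s2, hs2, hb2⟩ := exists_bound Z X.ξ X.ne
  have hZle : ∀ v, Z.H v ≤ ng (v.ord a') + ng (v.ord b') + ng (v.ord d.c) :=
    Zm_H_le a' b' d.c ha0 hb0 d.c_ne halg
  have hAk : ∀ v, Ak s (k + 1) v = (v.ord a' : ℝ) + ng (v.ord a') + ((v.ord b' : ℝ)
      + ng (v.ord b')) := by
    intro v
    change Th s (k + 1 + 1) v + Th s (k + 1) v = _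
    rw [Pool.Agent.TH573.C8_NEFA.Th_eq, Pool.Agent.TH573.C8_NEFA.Th_eq, ps_inv v hya, ps_inv v hyb]
  have hA1 : ∀ v, 0 ≤ Ak s 1 v := fun v => add_nonneg (Th_nonneg s _ v) (Th_nonneg s _ v)
  -- the value at vS
  have hyS : ∀ j, vS.ord (s.y j) = 0 := s.triv vS hvS
  have hThS : ∀ j, Th s j vS = 0 := by
    intro j
    rw [Pool.Agent.TH573.C8_NEFA.Th_eq, hyS j]
    simp
  have hAkS : ∀ j, Ak s j vS = 0 := by
    intro j
    change Th s (j + 1) vS + Th s j vS = 0
    rw [hThS, hThS, add_zero]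
  have hbetS : bet s vS = 0 := by
    change Ak s 2 vS - kap * Ak s 1 vS = 0
    rw [hAkS, hAkS]
    ring
  have haS : vS.ord a' = 0 := by rw [ha', vS.ord_inv hya, hyS]; rfl
  have hbS : vS.ord b' = 0 := by rw [hb', vS.ord_inv hyb, hyS]; rfl
  set C : ℝ := n1 * (vS.ord s2 : ℝ) + (vS.ord s1 : ℝ) - Y.H vS with hC
  have key : ∀ δ : ℝ, 0 < δ → n - δ * C ≤ 2 * (g + δ * n1 * n2) := by
    intro δ hδ
    obtain ⟨P, hP, hPle, hPv⟩ := nef_touch hN hδ vS
    set E := bet s + n • Sb d + δ • ((n1 : ℝ) • X.H + dv s1) - P with hE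
    have hER : IsRCar X E :=
      (((hbetR.add ((rcar_Sb d h).smul n)).add
        ((((rcar_H X).smul _).add (rcar_of_prin (dv_mem hs1))).smul δ))).sub (rcar_of_prin hP)
    have hE0 : ∀ v, 0 ≤ E v := by
      refine rcar_nonneg hER fun w hw => ?_
      simp only [hE, Pi.sub_apply, Pi.add_apply, Pi.smul_apply, smul_eq_mul, dv]
      have h2 := hPle w
      have h3 := hle w hw
      have h4 : Y.H w ≤ n1 * X.H w + (w.ord s1 : ℝ) := hb1 w
      have h5 := mul_le_mul_of_nonneg_left h4 hδ.le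
      linarith
    set P2 := g • (dv a' + dv b') + Q + δ • ((n1 : ℝ) • dv s2 + dv s1) - P with hP2
    have hP2m : P2 ∈ Prin K := by
      refine (Prin K).sub_mem ((Prin K).add_mem ((Prin K).add_mem ((Prin K).smul_mem _
        ((Prin K).add_mem (dv_mem ha0) (dv_mem hb0))) hQ) ((Prin K).smul_mem _
        ((Prin K).add_mem ((Prin K).smul_mem _ (dv_mem hs2)) (dv_mem hs1)))) hP
    have hn1 : (0 : ℝ) ≤ n1 := Nat.cast_nonneg _
    have hn2 : (0 : ℝ) ≤ n2 := Nat.cast_nonneg _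
    have hmid : ∀ v : DVal K, 0 ≤ (g + δ * n1 * n2) * (ng (v.ord a') + ng (v.ord b'))
        + (δ * n1 * n2) * ng (v.ord d.c) + n * Sb d v + P2 v := by
      intro v
      have e1 := hE0 v
      simp only [hE, Pi.sub_apply, Pi.add_apply, Pi.smul_apply, smul_eq_mul, dv] at e1
      have e2 : X.H v ≤ n2 * Z.H v + (v.ord s2 : ℝ) := hb2 v
      have e3 := hZle v
      have e4 : Q v = bet s v + e * Ak s 1 v - g * Ak s (k + 1) v := rfl
      have e5 := mul_nonneg he0 (hA1 v)
      have e6 := hAk v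
      rw [e6] at e4
      have e7 : P2 v = g * ((v.ord a' : ℝ) + (v.ord b' : ℝ)) + Q v
          + δ * (n1 * (v.ord s2 : ℝ) + (v.ord s1 : ℝ)) - P v := rfl
      have e8 : X.H v ≤ n2 * (ng (v.ord a') + ng (v.ord b') + ng (v.ord d.c))
          + (v.ord s2 : ℝ) := by
        have := mul_le_mul_of_nonneg_left e3 hn2
        linarith
      have e9 := mul_le_mul_of_nonneg_left e8 (mul_nonneg hδ.le hn1)
      rw [e7]
      nlinarith [e1, e9, e5, e4]
    have hmain := norm_lemma a' b' d.c hind halg hP2m (g + δ * n1 * n2) (δ * n1 * n2) n (δ * C)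
      ?_ ?_ ?_
    · exact hmain
    · intro v
      have e1 := hmid v
      have e2 := mul_le_mul_of_nonneg_left (Sb_le d v) hn0.le
      linarith
    · intro v v1 v2 v3
      have e1 := hmid v
      have f1 : v.ord (s.y (k + 1 + 1)) = -v.ord d.c := by
        have : v.ord a' = -v.ord (s.y (k + 2)) := v.ord_inv hya
        change v.ord (s.y (k + 2)) = _
        omega
      have f2 : v.ord (s.y (k + 1)) = -v.ord d.c := by
        have : v.ord b' = -v.ord (s.y (k + 1)) := v.ord_inv hyb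
        omega
      obtain ⟨g1, g2⟩ := s.fil (k + 1) (by omega) v v1 f1 f2
      have g3 : (0 : ℝ) ≤ v.ord d.c := by exact_mod_cast v1.le
      have g4 : mn d v = v.ord d.c := by
        have h5 : ((v.ord d.c : ℤ) : ℝ) ≤ v.ord d.a := by exact_mod_cast g1
        have h6 : ((v.ord d.c : ℤ) : ℝ) ≤ v.ord d.b := by exact_mod_cast g2
        rw [mn, min_eq_right h6, min_eq_right h5, max_eq_right g3]
      have g5 : Sb d v = 0 := by
        rw [Sb, g4, ps_of_nonneg v1.le, sub_self]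
      rw [g5, v2, v3, ng_of_nonneg v1.le] at e1
      linarith
    · intro v v1 v2
      have hvs : IsS d v := ⟨s.pair (k + 1) (by omega) v v1, v2⟩
      have hsame := huniq v hvs
      rw [prin_congr hsame hP2m, hsame _ d.c_ne, hvc]
      have e7 : P2 vS = g * ((vS.ord a' : ℝ) + (vS.ord b' : ℝ)) + Q vS
          + δ * (n1 * (vS.ord s2 : ℝ) + (vS.ord s1 : ℝ)) - P vS := rfl
      have e4 : Q vS = bet s vS + e * Ak s 1 vS - g * Ak s (k + 1) vS := rfl
      rw [e7, e4, hbetS, hAkS, hAkS, haS, hbS, hPv, ← hn, hC]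
      push_cast
      linarith
  -- choose δ
  set M : ℝ := |C| + 2 * n1 * n2 + 1 with hM
  have hn1 : (0 : ℝ) ≤ n1 := Nat.cast_nonneg _
  have hn2 : (0 : ℝ) ≤ n2 := Nat.cast_nonneg _
  have hn12 : (0 : ℝ) ≤ 2 * n1 * n2 := by positivity
  have hMpos : 0 < M := by
    have := abs_nonneg C
    linarith
  have h1 := key (n / (4 * M)) (by positivity)
  have h2 : n / (4 * M) * M = n / 4 := by
    field_simp
  have h3 : n / (4 * M) * (C + 2 * n1 * n2) ≤ n / (4 * M) * M :=
    mul_le_mul_of_nonneg_left (by linarith [le_abs_self C]) (by positivity)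
  have h4 : n / (4 * M) * (C + 2 * n1 * n2) = n / (4 * M) * C + 2 * (n / (4 * M) * n1 * n2) := by
    ring
  linarith

end Pool.Agent.TH202
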