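import Mathlib
import Pool.Agent.TH202.NegC
import Pool.Agent.TH202.PrimeOf
import Pool.Agent.TH573.C8_NEFA
import Pool.Agent.TH670.C8_HARTP

/-!
# The irrational class does not descend below the strict transform of `c = 0`
-/

set_option autoImplicit false

namespace Pool.Agent.TH202

open Pool.Agent.H436R3.Fol MvPolynomial

variable {K : Type} [Field K] [Algebra ℂ K]

theorem kap_irrational : Irrational kap := by
  have h5 : Irrational (Real.sqrt 5) := by
    have := Nat.Prime.irrational_sqrt (p := 5) (by norm_num)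
    exact_mod_cast this
  have h1 : kap = ((3 / 2 : ℚ) : ℝ) - ((1 / 2 : ℚ) : ℝ) * Real.sqrt 5 := by
    rw [kap]
    push_cast
    ring
  rw [h1]
  exact (h5.ratCast_mul (by norm_num)).ratCast_sub _

/-- A rational functional that separates `1` and `kap`. -/
theorem exists_functional : ∃ ℓ : ℝ →ₗ[ℚ] ℚ, ℓ 1 = 0 ∧ ℓ kap = -1 := by
  have h : kap ∉ Submodule.span ℚ ({1} : Set ℝ) := by
    rw [Submodule.mem_span_singleton]
    rintro ⟨q, hq⟩
    apply kap_irrational
    refine ⟨q, ?_⟩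
    rw [← hq, Algebra.smul_def, mul_one]
    rfl
  obtain ⟨f, hf, hf'⟩ := Submodule.exists_dual_map_eq_bot_of_notMem h inferInstance
  have h1 : f 1 = 0 := by
    have : f 1 ∈ (Submodule.span ℚ ({1} : Set ℝ)).map f :=
      ⟨1, Submodule.mem_span_singleton_self _, rfl⟩
    rw [hf'] at this
    exact this
  refine ⟨-(f kap)⁻¹ • f, ?_, ?_⟩
  · rw [LinearMap.smul_apply, h1, smul_zero]
  · rw [LinearMap.smul_apply, smul_eq_mul, neg_mul, inv_mul_cancel₀ hf]

/-- The integer `max (0, -v(y_k))`. -/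
noncomputable def ThZ {d : Dat K} (s : Sq d) (k : ℕ) (v : DVal K) : ℤ := max 0 (-v.ord (s.y k))

theorem Th_cast {d : Dat K} (s : Sq d) (k : ℕ) (v : DVal K) : Th s k v = (ThZ s k v : ℝ) := by
  rw [Pool.Agent.TH573.C8_NEFA.Th_eq, ThZ]
  push_cast
  rfl

theorem b_step [Algebra.EssFiniteType ℂ K] {d : Dat K} (s : Sq d) (vS : DVal K)
    (hvS : IsS d vS) (Y : Model K) (N : DVal K → ℝ) (hN : IsRCar Y N)
    (heq : ∀ v, N v = bet s v) : IsPrimeOn Y vS := by
  obtain ⟨x, hthr, _, hx⟩ := exists_cen Y vS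
  have hreg := ((x.thr_iff vS).1 hthr).1
  obtain ⟨P, hP, hPN⟩ := hN x
  obtain ⟨m, r, g, hg, hPg⟩ := exists_rep hP
  obtain ⟨ℓ, hℓ1, hℓk⟩ := exists_functional
  have hya : s.y 2 ≠ 0 := s.y_ne _
  have hyb : s.y 1 ≠ 0 := s.y_ne _
  -- the rational identity
  have hrat : ∀ v, x.Thr v → ((ThZ s 2 v + ThZ s 1 v : ℤ) : ℚ) = ∑ i, ℓ (r i) * (v.ord (g i) : ℚ) := by
    intro v hv
    have h1 : bet s v = ∑ i, r i * (v.ord (g i) : ℝ) := by rw [← heq v, hPN v hv, hPg]
    have h2 : bet s v = ((ThZ s 3 v + ThZ s 2 v : ℤ) : ℚ) • (1 : ℝ)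
        - ((ThZ s 2 v + ThZ s 1 v : ℤ) : ℚ) • kap := by
      change (Th s 3 v + Th s 2 v) - kap * (Th s 2 v + Th s 1 v) = _
      rw [Th_cast, Th_cast, Th_cast, Rat.smul_def, Rat.smul_def]
      push_cast
      ring
    have h3 : (∑ i, r i * (v.ord (g i) : ℝ)) = ∑ i, ((v.ord (g i) : ℤ) : ℚ) • r i := by
      refine Finset.sum_congr rfl fun i _ => ?_
      rw [Algebra.smul_def, mul_comm]
      simp
    rw [h2, h3] at h1
    have h4 := congrArg ℓ h1
    rw [map_sub, map_smul, map_smul, hℓ1, hℓk, map_sum] at h4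
    simp only [map_smul, smul_eq_mul, mul_zero, mul_neg, mul_one, zero_sub, neg_neg] at h4
    rw [h4]
    exact Finset.sum_congr rfl fun i _ => mul_comm _ _
  -- common denominator
  obtain ⟨M, hM, e, he⟩ : ∃ M : ℕ, 0 < M ∧ ∃ e : Fin m → ℤ, ∀ i, (M : ℚ) * ℓ (r i) = e i := by
    refine ⟨∏ i, (ℓ (r i)).den, Finset.prod_pos fun i _ => (ℓ (r i)).den_pos,
      fun i => (∏ j ∈ Finset.univ.erase i, ((ℓ (r j)).den : ℤ)) * (ℓ (r i)).num, fun i => ?_⟩
    rw [← Finset.prod_erase_mul Finset.univ (fun j => (ℓ (r j)).den) (Finset.mem_univ i)]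
    push_cast
    rw [mul_assoc, Rat.den_mul_eq_num]
  set G : K := ∏ i, g i ^ e i with hG
  have hG0 : G ≠ 0 := Finset.prod_ne_zero_iff.2 fun i _ => zpow_ne_zero _ (hg i)
  have hGord : ∀ v, x.Thr v → v.ord G = M * (ThZ s 2 v + ThZ s 1 v) := by
    intro v hv
    rw [hG, ord_zprod v g hg]
    have h1 := hrat v hv
    have h2 : ((∑ i, v.ord (g i) * e i : ℤ) : ℚ) =
        (((M : ℤ) * (ThZ s 2 v + ThZ s 1 v) : ℤ) : ℚ) := by
      push_cast at h1 ⊢
      rw [h1, Finset.mul_sum]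
      refine Finset.sum_congr rfl fun i _ => ?_
      rw [← he i]
      ring
    exact_mod_cast h2
  have hT0 : ∀ k v, 0 ≤ ThZ s k v := fun k v => le_max_left _ _
  have hT1 : ∀ k v, -v.ord (s.y k) ≤ ThZ s k v := fun k v => le_max_right _ _
  have hmem : ∀ F : K, F ≠ 0 → (∀ v, x.Thr v → 0 ≤ v.ord F) → x.Mem F := by
    intro F _ hF
    refine Pool.Agent.TH670.C8_HARTP.hartogs_local (R_fg (X := Y) x.i) (R_frac Y x.i) (R_normal Y x.i) x.p x.prime ?_
    intro w hw hwx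
    right
    exact hF w ((x.thr_iff w).2 ⟨hw.1, hwx⟩)
  have hMZ : (0 : ℤ) < M := by exact_mod_cast hM
  have hGS : vS.ord G = 0 := by
    rw [hGord vS hthr, ThZ, ThZ, s.triv vS hvS, s.triv vS hvS]
    simp
  -- units of the local ring
  have hunit : ∀ F : K, F ≠ 0 → x.Mem F → vS.ord F = 0 → x.Mem F⁻¹ := by
    intro F hF0 hF hFS
    obtain ⟨t, ht, htF⟩ := hF
    have ht0 : (t : K) ≠ 0 := fun h0 => ht ((hx t).2 (Or.inl h0))
    have hts : vS.ord (t : K) = 0 := by
      have h1 := vS.ord_nonneg ht0 (hreg _ t.2)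
      have h2 : ¬ 0 < vS.ord (t : K) := fun h => ht ((hx t).2 (Or.inr h))
      omega
    have h3 : (⟨_, htF⟩ : Y.R x.i) ∉ x.p := by
      rw [hx]
      rintro (h | h)
      · exact mul_ne_zero ht0 hF0 h
      · change 0 < vS.ord ((t : K) * F) at h
        rw [vS.map_mul _ _ ht0 hF0, hts, hFS] at h
        exact lt_irrefl _ h
    have h4 := x.mem_mul (x.mem_of_R t.2) (x.mem_inv h3)
    have h5 : (t : K) * ((t : K) * F)⁻¹ = F⁻¹ := by
      field_simp
    have h6 : ((⟨_, htF⟩ : Y.R x.i) : K) = (t : K) * F := rfl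
    rwa [h6, h5] at h4
  have hGm : x.Mem G := by
    refine hmem G hG0 fun v hv => ?_
    rw [hGord v hv]
    exact mul_nonneg hMZ.le (add_nonneg (hT0 _ _) (hT0 _ _))
  have hGi : x.Mem G⁻¹ := hunit G hG0 hGm hGS
  have hpowmem : ∀ k, (k = 1 ∨ k = 2) → x.Mem (s.y k ^ M) := by
    intro k hk
    have hyk : s.y k ≠ 0 := s.y_ne k
    have h1 : x.Mem (s.y k ^ M * G) := by
      refine hmem _ (mul_ne_zero (pow_ne_zero _ hyk) hG0) fun v hv => ?_
      rw [v.map_mul _ _ (pow_ne_zero _ hyk) hG0, v.ord_pow hyk, hGord v hv, ← mul_add]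
      refine mul_nonneg hMZ.le ?_
      have h2 := hT1 k v
      have h3 := hT0 1 v
      have h4 := hT0 2 v
      rcases hk with rfl | rfl <;> omega
    have h2 := x.mem_mul h1 hGi
    rwa [mul_assoc, mul_inv_cancel₀ hG0, mul_one] at h2
  have hymem : ∀ k, (k = 1 ∨ k = 2) → x.Mem (s.y k) := by
    intro k hk
    refine mem_of_root' x (Polynomial.X ^ M - Polynomial.C (s.y k ^ M))
      (Polynomial.monic_X_pow_sub_C _ hM.ne') (fun j => ?_) (by simp)
    rw [Polynomial.coeff_sub, Polynomial.coeff_X_pow, Polynomial.coeff_C]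
    have h1 : ∀ f g : K, x.Mem f → x.Mem g → x.Mem (f - g) := fun f g hf hg =>
      x.loc.sub_mem hf hg
    apply h1
    · split_ifs
      · exact x.loc.one_mem
      · exact x.loc.zero_mem
    · split_ifs
      · exact hpowmem k hk
      · exact x.loc.zero_mem
  have ha : x.Mem d.a := by
    have := hunit (s.y 2) hya (hymem 2 (Or.inr rfl)) (s.triv vS hvS 2)
    rwa [s.y2, inv_inv] at this
  have hb : x.Mem d.b := by
    have := hunit (s.y 1) hyb (hymem 1 (Or.inl rfl)) (s.triv vS hvS 1)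
    rwa [s.y1, inv_inv] at this
  have halg : ∀ f : K, IsAlgebraic (Algebra.adjoin ℂ (Set.range ![d.a, d.b, d.c])) f := by
    have h1 := s.alg 1 le_rfl
    rw [s.y1, s.y2, inv_inv, inv_inv] at h1
    exact h1
  exact primeOf x d halg vS hvS hx hreg ha hb

end Pool.Agent.TH202
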