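import Mathlib
import Pool.Agent.TH202.FlRes
import Pool.Agent.TH202.Neg

/-!
# The adjoint divisors of the sequence of flips
-/

set_option autoImplicit false

namespace Pool.Agent.TH202

open Pool.Agent.H436R3.Fol MvPolynomial

variable {K : Type} [Field K] [Algebra ℂ K]

/-- The b-divisor of `K + β` on the variety `M3 s k`. -/
noncomputable def Dn {d : Dat K} (s : Sq d) (k : ℕ) : DVal K → ℝ :=
  bet s + pr d + kap ^ (k - 1) • ((-kap) • (Lk s k - Th s k) +
    (1 - kap) • (Lk s (k + 1) - Th s (k + 1)) + (Lk s (k + 2) - Th s (k + 2)))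

end Pool.Agent.TH202
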