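import Mathlib
import Pool.Agent.TH202.FlRes
import Pool.Agent.TH202.RL
import Pool.Agent.TH202.Cen
import Pool.Agent.TH755.C8_SEQ
import Pool.Agent.TH202.Neg
import Pool.Agent.TH202.FlDn
import Pool.Agent.TH26.FL_GAUSS
import Pool.Agent.TH444.FL_HOR

/-!
# The real Picard group of the varieties in the sequence
-/

set_option autoImplicit false

namespace Pool.Agent.TH202

open Pool.Agent.H436R3.Fol MvPolynomial

variable {K : Type} [Field K] [Algebra ℂ K]

/-- The good vertical valuations. -/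
def Good {d : Dat K} (s : Sq d) (k : ℕ) (w : DVal K) : Prop :=
  IsGauss d w ∧ ∀ j, k ≤ j → j ≤ k + 2 → 0 ≤ w.ord (s.y j)

theorem c_mem_trans (d : Dat K) : Transcendental (Fc d) d.c := Pool.Agent.TH189.C8_VS.c_trans d

theorem aeval_ne {d : Dat K} {p : Polynomial (Fc d)} (hp : p ≠ 0) : Polynomial.aeval d.c p ≠ 0 := by
  intro h
  exact hp (by
    by_contra h0
    exact c_mem_trans d ⟨p, h0, h⟩)

theorem coe_ne {d : Dat K} {x : Fc d} (hx : x ≠ 0) : (x : K) ≠ 0 := fun h => hx (Subtype.ext h)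

/-- Polynomials in `c` are regular at valuations trivial on `F` with `0 ≤ w(c)`. -/
theorem reg_poly {d : Dat K} {w : DVal K} (htr : IsTriv d w) (hc : 0 ≤ w.ord d.c)
    (p : Polynomial (Fc d)) : w.Reg (Polynomial.aeval d.c p) := by
  rw [Polynomial.aeval_eq_sum_range]
  refine w.O.sum_mem fun i _ => ?_
  rw [Algebra.smul_def]
  refine w.O.mul_mem ?_ (w.O.pow_mem (Or.inr hc) i)
  by_cases h0 : p.coeff i = 0
  · rw [h0, map_zero]
    exact w.O.zero_mem
  · exact Or.inr (htr _ (p.coeff i).2 (coe_ne h0)).ge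

theorem poly_zero_coeff {d : Dat K} {vS : DVal K} (hvS : IsTriv d vS) (hvc : vS.ord d.c = 1)
    {p : Polynomial (Fc d)} (h0 : p.coeff 0 = 0) : vS.Pos (Polynomial.aeval d.c p) := by
  have h1 : Polynomial.aeval d.c p = Polynomial.aeval d.c p.divX * d.c := by
    conv_lhs => rw [← Polynomial.divX_mul_X_add p, h0]
    simp
  rw [h1]
  refine vS.pos_mul_left (reg_poly hvS (by omega) _) ?_
  right
  omega

section

variable {d : Dat K} {s : Sq d} {k : ℕ} {hk : 1 ≤ k} {vS : DVal K} {x : Pt (M3 s k hk)}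

/-- The properties of the centre of `c = 0`. -/
structure IsP0 {d : Dat K} (s : Sq d) (k : ℕ) (hk : 1 ≤ k) (vS : DVal K) (x : Pt (M3 s k hk)) :
    Prop where
  thr : x.Thr vS
  mem : ∀ f : (M3 s k hk).R x.i, f ∈ x.p ↔ vS.Pos (f : K)
  reg : ∀ w : DVal K, 0 ≤ w.ord d.c → (∀ j, k ≤ j → j ≤ k + 2 → 0 ≤ w.ord (s.y j)) →
    ∀ f ∈ (M3 s k hk).R x.i, w.Reg f
  poly : ∀ f ∈ (M3 s k hk).R x.i, ∃ p : Polynomial (Fc d), Polynomial.aeval d.c p = f ∧
    ∃ z : ℂ, (p.coeff 0 : K) = algebraMap ℂ K z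
  triv : IsTriv d vS
  one : vS.ord d.c = 1

theorem gauss_le {w : DVal K} (h : IsGauss d w) {p : Polynomial (Fc d)} (hp : p ≠ 0)
    {j : ℕ} (hj : p.coeff j ≠ 0) :
    w.ord (Polynomial.aeval d.c p) ≤ w.ord (p.coeff j : K) := by
  obtain ⟨i, _, h1, h2⟩ := Pool.Agent.TH26.FL_GAUSS.gauss_min h hp
  rw [h1]
  exact h2 j hj

theorem const_zero {w : DVal K} {z : ℂ} (h : 0 < w.ord (algebraMap ℂ K z)) : z = 0 := by
  by_contra hz
  rw [w.const z hz] at h
  exact lt_irrefl _ h

/-- Good valuations are through the centre of `c = 0`. -/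
theorem thr_of_good (hx : IsP0 s k hk vS x) {w : DVal K} (hw : Good s k w) : x.Thr w := by
  rw [Pt.thr_iff]
  have hreg := hx.reg w (by rw [hw.1.1]) hw.2
  refine ⟨hreg, fun f hf => ?_⟩
  rw [hx.mem]
  obtain ⟨p, hp, z, hz⟩ := hx.poly f f.2
  rw [← hp] at hf ⊢
  by_cases hp0 : p = 0
  · left
    rw [hp0, map_zero]
  apply poly_zero_coeff hx.triv hx.one
  by_contra hc0
  have h1 := gauss_le hw.1 hp0 hc0
  have h2 := hf.resolve_left (aeval_ne hp0)
  rw [hz] at h1
  have h3 := const_zero (lt_of_lt_of_le h2 h1)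
  apply hc0
  apply Subtype.ext
  rw [hz, h3, map_zero]
  rfl

/-- A horizontal prime that is not through the centre of `c = 0`. -/
theorem ord_of_not_thr (hx : IsP0 s k hk vS x) (hy : ∀ j, s.y j ∈ Fc d) {w v : DVal K}
    (hw : Good s k w) (htr : IsTriv d v) (hc : 0 ≤ v.ord d.c) {π : Polynomial (Fc d)}
    (hπ : ∀ q : Polynomial (Fc d), v.Pos (Polynomial.aeval d.c q) ↔ π ∣ q) (hπ0 : π ≠ 0)
    (hπc : π.coeff 0 ≠ 0)
    (hv : ¬ x.Thr v) : w.ord (Polynomial.aeval d.c π) = w.ord (π.coeff 0 : K) := by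
  by_contra hne
  apply hv
  have hlt : w.ord (Polynomial.aeval d.c π) < w.ord (π.coeff 0 : K) :=
    lt_of_le_of_ne (gauss_le hw.1 hπ0 hπc) hne
  rw [Pt.thr_iff]
  refine ⟨hx.reg v hc fun j _ _ => (htr _ (hy j) (s.y_ne j)).ge, fun f hf => ?_⟩
  rw [hx.mem]
  obtain ⟨p, hp, z, hz⟩ := hx.poly f f.2
  have hwf : w.Reg (f : K) := hx.reg w (by rw [hw.1.1]) hw.2 f f.2
  rw [← hp] at hf hwf ⊢
  obtain ⟨q, rfl⟩ := (hπ p).1 hf
  by_cases hp0 : π * q = 0
  · left
    rw [hp0, map_zero]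
  have hq0 : q ≠ 0 := right_ne_zero_of_mul hp0
  apply poly_zero_coeff hx.triv hx.one
  by_contra hc0
  have hqc : q.coeff 0 ≠ 0 := by
    intro h0
    apply hc0
    rw [Polynomial.mul_coeff_zero, h0, mul_zero]
  have h1 := gauss_le hw.1 hq0 hqc
  have h2 := hwf.resolve_left (aeval_ne hp0)
  rw [map_mul, w.map_mul _ _ (aeval_ne hπ0) (aeval_ne hq0)] at h2
  have h3 : w.ord (((π * q).coeff 0 : Fc d) : K) = w.ord (π.coeff 0 : K) + w.ord (q.coeff 0 : K) := by
    rw [Polynomial.mul_coeff_zero]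
    exact w.map_mul _ _ (coe_ne hπc) (coe_ne hqc)
  rw [hz] at h3
  have h4 := const_zero (w := w) (z := z) (by omega)
  apply hc0
  apply Subtype.ext
  rw [hz, h4, map_zero]
  rfl

end

/-- Functions that respect equality of valuations. -/
def Resp (C : DVal K → ℝ) : Prop := ∀ w z, Same w z → C w = C z

theorem resp_prin {P : DVal K → ℝ} (hP : P ∈ Prin K) : Resp P := fun _ _ h => prin_congr h hP

theorem same_symm {v w : DVal K} (h : Same v w) : Same w v := fun f hf => (h f hf).symm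

theorem same_trans {u v w : DVal K} (h : Same u v) (h' : Same v w) : Same u w :=
  fun f hf => (h f hf).trans (h' f hf)

theorem same_triv {d : Dat K} {v w : DVal K} (h : Same v w) (hv : IsTriv d v) : IsTriv d w :=
  fun f hf hf0 => by rw [← h f hf0]; exact hv f hf hf0

/-- Removing the horizontal primes. -/
theorem horiz {d : Dat K} {s : Sq d} {k : ℕ} {hk : 1 ≤ k} {vS : DVal K} {x : Pt (M3 s k hk)}
    (hx : IsP0 s k hk vS x) (hy : ∀ j, s.y j ∈ Fc d) (Hor : DVal K → Prop)
    (hH : ∀ w, Hor w → IsTriv d w ∧ w.ord d.c = 0) {Z : Set (DVal K)} (hZ : Z.Finite) :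
    ∀ C : DVal K → ℝ, Resp C →
      (∀ w, Hor w → C w ≠ 0 → ¬ x.Thr w ∧ ∃ z ∈ Z, Same w z) →
      ∃ P ∈ Prin K, (∀ w, Hor w → C w = P w) ∧ ∀ w, Good s k w → P w = 0 := by
  classical
  refine Set.Finite.induction_on _ hZ ?_ ?_
  · intro C _ h
    refine ⟨0, (Prin K).zero_mem, fun w hw => ?_, fun _ _ => rfl⟩
    by_contra h0
    obtain ⟨_, z, hz, _⟩ := h w hw h0
    exact hz
  · intro z0 Z hz0 _ ih C hC h
    by_cases hex : ∃ w, Hor w ∧ C w ≠ 0 ∧ Same w z0
    · obtain ⟨w1, hw1, hCw1, hwz⟩ := hex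
      obtain ⟨htr1, hc1⟩ := hH w1 hw1
      obtain ⟨π, hirr, hπ1, hπ⟩ := Pool.Agent.TH444.FL_HOR.hor htr1 hc1.ge
      have hπ0 : π ≠ 0 := hirr.ne_zero
      have hπc : π.coeff 0 ≠ 0 := by
        intro h0
        have h1 : (Polynomial.X : Polynomial (Fc d)) ∣ π := Polynomial.X_dvd_iff.2 h0
        have h2 : π ∣ Polynomial.X := by
          obtain ⟨q, hq⟩ := h1
          rcases hirr.isUnit_or_isUnit hq with h3 | h3
          · exact absurd h3 Polynomial.not_isUnit_X
          · obtain ⟨u, hu⟩ := h3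
            refine ⟨(u⁻¹ : (Polynomial (Fc d))ˣ), ?_⟩
            rw [hq, ← hu, mul_assoc, Units.mul_inv, mul_one]
        have h3 := (hπ Polynomial.X).2 h2
        rw [Polynomial.aeval_X] at h3
        have h4 := h3.resolve_left d.c_ne
        omega
      set Q : DVal K → ℝ := C w1 • (dv (Polynomial.aeval d.c π) - dv (π.coeff 0 : K)) with hQ
      have hQm : Q ∈ Prin K := (Prin K).smul_mem _ ((Prin K).sub_mem (dv_mem (aeval_ne hπ0))
        (dv_mem (coe_ne hπc)))
      have hQv : ∀ w, Q w = C w1 * ((w.ord (Polynomial.aeval d.c π) : ℝ) -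
          (w.ord (π.coeff 0 : K) : ℝ)) := fun w => rfl
      have hcases : ∀ w, Hor w → (Same w w1 ∧ Q w = C w) ∨ (¬ Same w w1 ∧ Q w = 0) := by
        intro w hw
        obtain ⟨htr, hc⟩ := hH w hw
        have hc0 : w.ord (π.coeff 0 : K) = 0 := htr _ (π.coeff 0).2 (coe_ne hπc)
        by_cases hpos : w.Pos (Polynomial.aeval d.c π)
        · left
          have hsame : Same w w1 := Pool.Agent.TH444.FL_HOR.hor_same htr htr1 hc.ge hc1.ge hirr hpos
            ((hπ π).2 dvd_rfl)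
          refine ⟨hsame, ?_⟩
          rw [hQv, hc0, hsame _ (aeval_ne hπ0), hπ1, hC w w1 hsame]
          push_cast
          ring
        · right
          have h1 := (reg_poly htr hc.ge π).resolve_left (aeval_ne hπ0)
          have h2 : w.ord (Polynomial.aeval d.c π) = 0 := by
            have h3 : ¬ 0 < w.ord (Polynomial.aeval d.c π) := fun h => hpos (Or.inr h)
            omega
          refine ⟨fun hs => ?_, ?_⟩
          · rw [hs _ (aeval_ne hπ0), hπ1] at h2
            exact one_ne_zero h2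
          · rw [hQv, hc0, h2]
            push_cast
            ring
      obtain ⟨P, hP, hP1, hP2⟩ := ih (C - Q) (fun w z hs => by
        rw [Pi.sub_apply, Pi.sub_apply, hC w z hs, resp_prin hQm w z hs]) (by
        intro w hw hne
        rw [Pi.sub_apply] at hne
        rcases hcases w hw with ⟨_, h2⟩ | ⟨h1, h2⟩
        · rw [h2, sub_self] at hne
          exact absurd rfl hne
        · rw [h2, sub_zero] at hne
          obtain ⟨h3, z, hz, h4⟩ := h w hw hne
          refine ⟨h3, z, ?_, h4⟩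
          rcases hz with rfl | hz
          · exact absurd (same_trans h4 (same_symm hwz)) h1
          · exact hz)
      refine ⟨P + Q, (Prin K).add_mem hP hQm, fun w hw => ?_, fun w hw => ?_⟩
      · have := hP1 w hw
        rw [Pi.sub_apply] at this
        rw [Pi.add_apply]
        linarith
      · rw [Pi.add_apply, hP2 w hw, hQv,
          ord_of_not_thr hx hy hw htr1 hc1.ge hπ hπ0 hπc (h w1 hw1 hCw1).1]
        ring
    · push Not at hex
      refine ih C hC fun w hw hne => ?_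
      obtain ⟨h3, z, hz, h4⟩ := h w hw hne
      refine ⟨h3, z, ?_, h4⟩
      rcases hz with rfl | hz
      · exact absurd h4 (hex w hw hne)
      · exact hz

theorem rcar_resp {X : Model K} {D : DVal K → ℝ} (hD : IsRCar X D) : Resp D :=
  fun _ _ h => rcar_congr hD h

theorem FinSupp.sub {X : Model K} {C D : DVal K → ℝ} (hC : FinSupp X C) (hD : FinSupp X D) :
    FinSupp X (C - D) := by
  obtain ⟨Z, hZ, h⟩ := hC
  obtain ⟨Z', hZ', h'⟩ := hD
  refine ⟨Z ∪ Z', hZ.union hZ', fun w hw hne => ?_⟩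
  by_cases h0 : C w = 0
  · have h1 : D w ≠ 0 := by
      intro h1
      apply hne
      rw [Pi.sub_apply, h0, h1, sub_zero]
    obtain ⟨z, hz, hs⟩ := h' w hw h1
    exact ⟨z, Or.inr hz, hs⟩
  · obtain ⟨z, hz, hs⟩ := h w hw h0
    exact ⟨z, Or.inl hz, hs⟩

theorem Lin_e2 (d : Dat K) (v : DVal K) : Lin (e2 d) v = ps (v.ord d.c) := by
  have h := v.ord_inv d.c_ne
  have h1 := v.ord_one
  apply le_antisymm
  · rw [Lin_le_iff]
    intro j
    fin_cases j
    · change -(v.ord (1 : K) : ℝ) ≤ _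
      rw [h1]
      simpa using ps_nonneg (v.ord d.c)
    · change -(v.ord (d.c⁻¹) : ℝ) ≤ _
      rw [h]
      push_cast
      rw [neg_neg]
      exact le_max_right _ _
  · refine max_le ?_ ?_
    · have := Lin_le (e2 d) v 0
      change -(v.ord (1 : K) : ℝ) ≤ _ at this
      rw [h1] at this
      simpa using this
    · have := Lin_le (e2 d) v 1
      change -(v.ord (d.c⁻¹) : ℝ) ≤ _ at this
      rw [h] at this
      push_cast at this
      rwa [neg_neg] at this

/-- A function on a class of pairwise equal valuations is proportional to a nonzero one. -/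
theorem exists_coeff {C F : DVal K → ℝ} (hC : Resp C) (hF : Resp F) (p : DVal K → Prop)
    (hp : ∀ w w', p w → p w' → Same w w') (hne : ∀ w, p w → F w ≠ 0) :
    ∃ a : ℝ, ∀ w, p w → C w = a * F w := by
  by_cases hex : ∃ w, p w
  · obtain ⟨w1, hw1⟩ := hex
    refine ⟨C w1 / F w1, fun w hw => ?_⟩
    have hs := hp w w1 hw hw1
    rw [hC w w1 hs, hF w w1 hs, div_mul_cancel₀ _ (hne w1 hw1)]
  · exact ⟨0, fun w hw => absurd ⟨w, hw⟩ hex⟩

end Pool.Agent.TH202
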