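import Mathlib
import Pool.Agent.TH202.FlRes
import Pool.Agent.TH202.RL
import Pool.Agent.TH202.Cen
import Pool.Agent.TH755.C8_SEQ
import Pool.Agent.TH202.Neg
import Pool.Agent.TH202.FlDn
import Pool.Agent.TH202.FlPic
import Pool.Agent.TH111.FL_PM
import Pool.Agent.TH444.FL_HOR
import Pool.Agent.TH592.FL_IR
import Pool.Agent.TH790.FL_P0
import Pool.Agent.TH902.FL_FSP
import Pool.Agent.TH917.FL_GUN
import Pool.Agent.TH89.FL_SMT
import Pool.Agent.TH955.FL_PO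
import Pool.Agent.TH902.FL_CL

/-!
# The real Picard group of the varieties in the sequence: main theorem
-/

set_option autoImplicit false

namespace Pool.Agent.TH202

open Pool.Agent.H436R3.Fol MvPolynomial

variable {K : Type} [Field K] [Algebra ℂ K]

theorem free_three {d : Dat K} (s : Sq d) (k : ℕ) (hk : 1 ≤ k) :
    IsFree (M3 s k hk) (e3 s k) ∧ IsFree (M3 s k hk) (e3 s (k + 1)) ∧
      IsFree (M3 s k hk) (e3 s (k + 2)) ∧ IsFree (M3 s k hk) (e2 d) := by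
  have h1 : IsFree (M3 s k hk) (sys3 s k) := free_ξ (M3 s k hk)
  obtain ⟨h2, h3⟩ := (Pool.Agent.TH111.FL_PM.free_pm (pm_ne (pm_ne (e3_ne s k) (e3_ne s _)) (e3_ne s _))
    (e2_ne d)).1 h1
  obtain ⟨h4, h5⟩ := (Pool.Agent.TH111.FL_PM.free_pm (pm_ne (e3_ne s k) (e3_ne s _)) (e3_ne s _)).1 h2
  obtain ⟨h6, h7⟩ := (Pool.Agent.TH111.FL_PM.free_pm (e3_ne s k) (e3_ne s _)).1 h4
  exact ⟨h6, h7, h5, h3⟩

theorem free_two {d : Dat K} (s : Sq d) (k : ℕ) (hk : 1 ≤ k) :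
    IsFree (M2 s k hk) (e3 s k) ∧ IsFree (M2 s k hk) (e3 s (k + 1)) ∧
      IsFree (M2 s k hk) (e2 d) := by
  have h1 : IsFree (M2 s k hk) (sys2 s k) := free_ξ (M2 s k hk)
  obtain ⟨h2, h3⟩ := (Pool.Agent.TH111.FL_PM.free_pm (pm_ne (e3_ne s k) (e3_ne s _)) (e2_ne d)).1 h1
  obtain ⟨h6, h7⟩ := (Pool.Agent.TH111.FL_PM.free_pm (e3_ne s k) (e3_ne s _)).1 h2
  exact ⟨h6, h7, h3⟩

theorem exists_isP0 {d : Dat K} (s : Sq d) (hy : ∀ j, s.y j ∈ Fc d) (k : ℕ) (hk : 1 ≤ k) :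
    ∃ (vS : DVal K) (x : Pt (M3 s k hk)), IsP0 s k hk vS x := by
  obtain ⟨vS, h1, h2, _⟩ := Pool.Agent.TH189.C8_VS.exists_vS d
  have htr : IsTriv d vS := fun f hf hf0 =>
    Pool.Agent.TH189.C8_VS.ord_kap d h1 ⟨f, hf⟩ fun h => hf0 (congrArg Subtype.val h)
  obtain ⟨x, h3, h4, h5, h6⟩ := Pool.Agent.TH790.FL_P0.p0_three s hy k hk vS htr h2
  exact ⟨vS, x, h3, h4, h5, h6, htr, h2⟩

variable [Algebra.EssFiniteType ℂ K]

theorem Lk_nonpole {d : Dat K} (s : Sq d) (hfil : FilV s) {w : DVal K} (hS : Sb d w = 0) {j : ℕ}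
    (hj : 1 ≤ j) (h : 0 ≤ w.ord (s.y j)) : Lk s j w = 0 := by
  rw [Pool.Agent.TH89.FL_SMT.L_eq_Th s hfil w hS j hj, Pool.Agent.TH573.C8_NEFA.Th_eq]
  apply max_eq_left
  have : (0 : ℝ) ≤ w.ord (s.y j) := by exact_mod_cast h
  linarith

theorem Lk_pole {d : Dat K} (s : Sq d) (hfil : FilV s) {w : DVal K} (hS : Sb d w = 0) {j : ℕ}
    (hj : 1 ≤ j) (h : w.ord (s.y j) < 0) : Lk s j w ≠ 0 := by
  rw [Pool.Agent.TH89.FL_SMT.L_eq_Th s hfil w hS j hj, Pool.Agent.TH573.C8_NEFA.Th_eq]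
  have : (w.ord (s.y j) : ℝ) < 0 := by exact_mod_cast h
  rw [max_eq_right (by linarith)]
  linarith

/-- The real Picard group of `M3 s k` is generated by the three classes `Lk` and the class of a
fibre over `P^1`. -/
theorem pic {d : Dat K} (h : XiAlg d) (s : Sq d) (hfil : FilV s)
    (hgen : ∀ k, 1 ≤ k → GenAt s k) (hy : ∀ j, s.y j ∈ Fc d) (k : ℕ) (hk : 1 ≤ k)
    (C : DVal K → ℝ) (hC : IsRCar (M3 s k hk) C) (hfin : FinSupp (M3 s k hk) C) :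
    ∃ a0 a1 a2 g : ℝ, C - (a0 • Lk s k + a1 • Lk s (k + 1) + a2 • Lk s (k + 2) +
      g • Lin (e2 d)) ∈ Prin K := by
  set M := M3 s k hk with hM
  obtain ⟨f0, f1, f2, fc⟩ := free_three s k hk
  obtain ⟨vS, x, hx⟩ := exists_isP0 s hy k hk
  obtain ⟨P, hP, hCP⟩ := hC x
  have hX : ∀ w, IsPrimeOn M w → IsPrimeOn (Xd d h) w := fun w hw =>
    (Pool.Agent.TH89.FL_SMT.small_three h s hfil k hk w hw).1
  have hS : ∀ w, IsPrimeOn M w → Sb d w = 0 := fun w hw =>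
    (Pool.Agent.TH89.FL_SMT.small_three h s hfil k hk w hw).2
  set C' := C - P with hC'
  have hC'R : IsRCar M C' := hC.sub (rcar_of_prin hP)
  obtain ⟨Z, hZ, hZs⟩ := hfin.sub (Pool.Agent.TH902.FL_FSP.finSupp_prin M hP)
  have hthr0 : ∀ w, x.Thr w → C' w = 0 := by
    intro w hw
    rw [hC', Pi.sub_apply, hCP w hw, sub_self]
  -- horizontal primes
  set Hor : DVal K → Prop := fun w => IsPrimeOn M w ∧ IsTriv d w ∧ 0 ≤ w.ord d.c with hHor
  obtain ⟨P2, hP2, hP2h, hP2g⟩ := horiz hx hy Hor (fun w hw => ⟨hw.2.1,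
    le_antisymm (Pool.Agent.TH902.FL_CL.class_triv w (hS w hw.1) hw.2.1) hw.2.2⟩) hZ C' (rcar_resp hC'R)
    (fun w hw hne => ⟨fun ht => hne (hthr0 w ht), hZs w hw.1 hne⟩)
  set C1 := C' - P2 with hC1
  have hC1R : IsRCar M C1 := hC'R.sub (rcar_of_prin hP2)
  -- values of `C1`
  have v0 : ∀ w, IsPrimeOn M w → IsTriv d w → 0 ≤ w.ord d.c → C1 w = 0 := by
    intro w hw htr hc
    rw [hC1, Pi.sub_apply, hP2h w ⟨hw, htr, hc⟩, sub_self]
  have v1 : ∀ w, IsPrimeOn M w → Good s k w → C1 w = 0 := by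
    intro w hw hg
    rw [hC1, Pi.sub_apply, hthr0 w (thr_of_good hx hg), hP2g w hg, sub_self]
  -- poles
  have next : ∀ w, IsPrimeOn M w → w.ord d.c ≤ 0 → ∀ j, 1 ≤ j → w.ord (s.y j) < 0 →
      w.ord (s.y (j + 1)) = 0 ∧ 0 ≤ w.ord (s.y (j + 2)) := by
    intro w hw hc j hj hp
    obtain ⟨h1, h2⟩ := Pool.Agent.TH955.FL_PO.pole_next h s hfil j hj w (hX w hw) hc hp
    exact ⟨(Pool.Agent.TH592.FL_IR.ind2_ne h1).2.2.1, h2⟩
  have coef : ∀ j, 1 ≤ j → ∃ a : ℝ, ∀ w, (IsPrimeOn M w ∧ w.ord d.c ≤ 0 ∧ w.ord (s.y j) < 0) →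
      C1 w = a * Lk s j w := by
    intro j hj
    refine exists_coeff (rcar_resp hC1R) ?_ _ ?_ ?_
    · intro w z hs
      obtain ⟨i, hi⟩ := exists_Lin (e3 s j) w
      obtain ⟨i', hi'⟩ := exists_Lin (e3 s j) z
      change Lin (e3 s j) w = Lin (e3 s j) z
      have h1 := Lin_le (e3 s j) w i'
      have h2 := Lin_le (e3 s j) z i
      rw [hs _ (e3_ne s j i')] at h1
      rw [← hs _ (e3_ne s j i)] at h2
      linarith
    · rintro w w' ⟨h1, h2, h3⟩ ⟨h4, h5, h6⟩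
      exact Pool.Agent.TH955.FL_PO.pole_same h s hfil hgen j hj w w' (hX w h1) h2 h3 (hX w' h4) h5 h6
    · rintro w ⟨h1, h2, h3⟩
      exact Lk_pole s hfil (hS w h1) hj h3
  obtain ⟨a0, ha0⟩ := coef k hk
  obtain ⟨a1, ha1⟩ := coef (k + 1) (by omega)
  obtain ⟨a2, ha2⟩ := coef (k + 2) (by omega)
  set C2 := C1 - (a0 • Lk s k + a1 • Lk s (k + 1) + a2 • Lk s (k + 2)) with hC2
  have hC2R : IsRCar M C2 := hC1R.sub ((((free_rcar f0).smul a0).add
    ((free_rcar f1).smul a1)).add ((free_rcar f2).smul a2))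
  have hC2v : ∀ w, C2 w = C1 w - (a0 * Lk s k w + a1 * Lk s (k + 1) w + a2 * Lk s (k + 2) w) :=
    fun w => rfl
  have u0 : ∀ w, IsPrimeOn M w → w.ord d.c = 0 → C2 w = 0 := by
    intro w hw hc
    have hSw := hS w hw
    by_cases p0 : w.ord (s.y k) < 0
    · obtain ⟨h1, h2⟩ := next w hw hc.le k hk p0
      rw [hC2v, ha0 w ⟨hw, hc.le, p0⟩, Lk_nonpole s hfil hSw (by omega) h1.ge,
        Lk_nonpole s hfil hSw (by omega) h2]
      ring
    by_cases p1 : w.ord (s.y (k + 1)) < 0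
    · obtain ⟨h1, h2⟩ := next w hw hc.le (k + 1) (by omega) p1
      rw [hC2v, ha1 w ⟨hw, hc.le, p1⟩, Lk_nonpole s hfil hSw hk (not_lt.1 p0),
        Lk_nonpole s hfil hSw (by omega) h1.ge]
      ring
    by_cases p2 : w.ord (s.y (k + 2)) < 0
    · rw [hC2v, ha2 w ⟨hw, hc.le, p2⟩, Lk_nonpole s hfil hSw hk (not_lt.1 p0),
        Lk_nonpole s hfil hSw (by omega) (not_lt.1 p1)]
      ring
    have h1 : C1 w = 0 := by
      by_cases htr : IsTriv d w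
      · exact v0 w hw htr hc.ge
      · refine v1 w hw ⟨Pool.Agent.TH902.FL_CL.class_vert h w (hX w hw) hc.le htr, fun j hj hj' => ?_⟩
        obtain rfl | rfl | rfl : j = k ∨ j = k + 1 ∨ j = k + 2 := by omega
        · exact not_lt.1 p0
        · exact not_lt.1 p1
        · exact not_lt.1 p2
    rw [hC2v, h1, Lk_nonpole s hfil hSw hk (not_lt.1 p0),
      Lk_nonpole s hfil hSw (by omega) (not_lt.1 p1),
      Lk_nonpole s hfil hSw (by omega) (not_lt.1 p2)]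
    ring
  -- the fibres over `P^1`
  obtain ⟨κ, hκ⟩ : ∃ κ : ℝ, ∀ w, (IsPrimeOn M w ∧ w.ord d.c < 0) →
      C2 w = κ * ng (w.ord d.c) := by
    refine exists_coeff (F := fun w => ng (w.ord d.c)) (rcar_resp hC2R) ?_ _ ?_ ?_
    · intro w z hs
      change ng (w.ord d.c) = ng (z.ord d.c)
      rw [hs _ d.c_ne]
    · rintro w w' ⟨h1, h2⟩ ⟨h3, h4⟩
      have tr : ∀ w, IsPrimeOn M w → w.ord d.c < 0 → IsTriv d w := by
        intro w hw hc
        by_contra htr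
        have := (Pool.Agent.TH902.FL_CL.class_vert h w (hX w hw) hc.le htr).1
        omega
      exact Pool.Agent.TH444.FL_HOR.inf_same (tr w h1 h2) (tr w' h3 h4) h2 h4
    · rintro w ⟨h1, h2⟩
      rw [ng_of_nonpos h2.le]
      have : (w.ord d.c : ℝ) < 0 := by exact_mod_cast h2
      linarith
  obtain ⟨m, hm⟩ : ∃ m : ℝ, ∀ w, (IsPrimeOn M w ∧ 0 < w.ord d.c) →
      C2 w = m * ps (w.ord d.c) := by
    refine exists_coeff (F := fun w => ps (w.ord d.c)) (rcar_resp hC2R) ?_ _ ?_ ?_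
    · intro w z hs
      change ps (w.ord d.c) = ps (z.ord d.c)
      rw [hs _ d.c_ne]
    · rintro w w' ⟨h1, h2⟩ ⟨h3, h4⟩
      obtain ⟨g1, g2⟩ := Pool.Agent.TH902.FL_CL.class_G h w (hX w h1) (hS w h1) h2
      obtain ⟨g3, g4⟩ := Pool.Agent.TH902.FL_CL.class_G h w' (hX w' h3) (hS w' h3) h4
      exact Pool.Agent.TH917.FL_GUN.gun g1 g2 g3 g4
    · rintro w ⟨h1, h2⟩
      rw [ps_of_nonneg h2.le]
      have : (0 : ℝ) < w.ord d.c := by exact_mod_cast h2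
      linarith
  set C3 := C2 - (κ + m) • Lin (e2 d) + κ • dv d.c with hC3
  have hC3R : IsRCar M C3 := (hC2R.sub ((free_rcar fc).smul _)).add
    ((rcar_of_prin (dv_mem d.c_ne)).smul κ)
  have hC3v : ∀ w, C3 w = C2 w - (κ + m) * Lin (e2 d) w + κ * (w.ord d.c : ℝ) := fun w => rfl
  have t0 : ∀ w, IsPrimeOn M w → C3 w = 0 := by
    intro w hw
    rw [hC3v, Lin_e2]
    rcases lt_trichotomy (w.ord d.c) 0 with hc | hc | hc
    · rw [hκ w ⟨hw, hc⟩, ng_of_nonpos hc.le, ps_of_nonpos hc.le]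
      ring
    · rw [u0 w hw hc, hc, ps_zero]
      push_cast
      ring
    · rw [hm w ⟨hw, hc⟩, ps_of_nonneg hc.le]
      ring
  have hz : ∀ v, C3 v = 0 := by
    intro v
    apply le_antisymm
    · have := rcar_nonneg hC3R.neg (fun w hw => by rw [Pi.neg_apply, t0 w hw, neg_zero]) v
      rw [Pi.neg_apply] at this
      linarith
    · exact rcar_nonneg hC3R (fun w hw => (t0 w hw).ge) v
  refine ⟨a0, a1, a2, κ + m, ?_⟩
  have hfinal : C - (a0 • Lk s k + a1 • Lk s (k + 1) + a2 • Lk s (k + 2) +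
      (κ + m) • Lin (e2 d)) = P + P2 - κ • dv d.c := by
    funext v
    have h1 := hz v
    simp only [hC3, hC2, hC1, hC', Pi.sub_apply, Pi.add_apply, Pi.smul_apply, smul_eq_mul] at h1 ⊢
    linarith
  rw [hfinal]
  exact (Prin K).sub_mem ((Prin K).add_mem hP hP2) ((Prin K).smul_mem _ (dv_mem d.c_ne))

end Pool.Agent.TH202
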