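import Mathlib
import Pool.Agent.TH202.FlRes
import Pool.Agent.TH202.RL
import Pool.Agent.TH202.Cen
import Pool.Agent.TH755.C8_SEQ
import Pool.Agent.TH202.Neg
import Pool.Agent.TH202.FlPicB
import Pool.Agent.TH202.FlDn
import Pool.Agent.TH111.FL_PM
import Pool.Agent.TH828.FL_SMF
import Pool.Agent.TH89.FL_SMT
import Pool.Agent.TH921.FL_GK
import Pool.Agent.TH921.FL_NI

/-!
# The infinite sequence of flips
-/

set_option autoImplicit false

namespace Pool.Agent.TH202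

open Pool.Agent.H436R3.Fol MvPolynomial

variable {K : Type} [Field K] [Algebra ℂ K]

theorem kap_pos : 0 < kap := by
  unfold kap
  have h : Real.sqrt 5 < 3 := by
    rw [show (3 : ℝ) = Real.sqrt (3 ^ 2) by rw [Real.sqrt_sq (by norm_num)]]
    exact Real.sqrt_lt_sqrt (by norm_num) (by norm_num)
  linarith

theorem kap_lt_one : kap < 1 := by
  unfold kap
  have h : (1 : ℝ) < Real.sqrt 5 := by
    rw [show (1 : ℝ) = Real.sqrt (1 ^ 2) by rw [Real.sqrt_sq (by norm_num)]]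
    exact Real.sqrt_lt_sqrt (by norm_num) (by norm_num)
  linarith

theorem H_two {d : Dat K} (s : Sq d) (k : ℕ) (hk : 1 ≤ k) (v : DVal K) :
    (M2 s k hk).H v = Lk s k v + Lk s (k + 1) v + Lin (e2 d) v := by
  change Lin (sys2 s k) v = _
  unfold sys2
  rw [Pool.Agent.TH111.FL_PM.Lin_pm (pm_ne (e3_ne s k) (e3_ne s _)) (e2_ne d),
    Pool.Agent.TH111.FL_PM.Lin_pm (e3_ne s k) (e3_ne s _)]
  rfl

theorem H_three {d : Dat K} (s : Sq d) (k : ℕ) (hk : 1 ≤ k) (v : DVal K) :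
    (M3 s k hk).H v = Lk s k v + Lk s (k + 1) v + Lk s (k + 2) v + Lin (e2 d) v := by
  change Lin (sys3 s k) v = _
  unfold sys3
  rw [Pool.Agent.TH111.FL_PM.Lin_pm (pm_ne (pm_ne (e3_ne s k) (e3_ne s _)) (e3_ne s _)) (e2_ne d),
    Pool.Agent.TH111.FL_PM.Lin_pm (pm_ne (e3_ne s k) (e3_ne s _)) (e3_ne s _), Pool.Agent.TH111.FL_PM.Lin_pm (e3_ne s k) (e3_ne s _)]
  rfl

theorem sfree_smul {X : Model K} {F : DVal K → ℝ} (hF : F ∈ SFree X) {a : ℝ} (ha : 0 ≤ a) :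
    a • F ∈ SFree X := by
  have := (SFree X).smul_mem (⟨a, ha⟩ : NNReal) hF
  exact this

theorem nef_of_comb {d : Dat K} (s : Sq d) (k : ℕ) (hk : 1 ≤ k) {D P : DVal K → ℝ}
    (hP : P ∈ Prin K) {a0 a1 a2 a3 : ℝ} (h0 : 0 ≤ a0) (h1 : 0 ≤ a1) (h2 : 0 ≤ a2) (h3 : 0 ≤ a3)
    (hD : D = a0 • Lk s k + a1 • Lk s (k + 1) + a2 • Lk s (k + 2) + a3 • Lin (e2 d) + P) :
    IsNef (M3 s k hk) D := by
  obtain ⟨f0, f1, f2, fc⟩ := free_three s k hk
  constructor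
  · rw [hD]
    exact (((((free_rcar f0).smul a0).add ((free_rcar f1).smul a1)).add
      ((free_rcar f2).smul a2)).add ((free_rcar fc).smul a3)).add (rcar_of_prin hP)
  · intro δ hδ
    refine ⟨a0 • Lk s k + a1 • Lk s (k + 1) + a2 • Lk s (k + 2) + a3 • Lin (e2 d) +
      δ • (M3 s k hk).H, ?_, P, hP, fun v => ?_⟩
    · exact (SFree _).add_mem ((SFree _).add_mem ((SFree _).add_mem ((SFree _).add_mem
        (sfree_smul (Lin_mem f0) h0) (sfree_smul (Lin_mem f1) h1)) (sfree_smul (Lin_mem f2) h2))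
        (sfree_smul (Lin_mem fc) h3)) (sfree_smul (Lin_mem (free_ξ _)) hδ.le)
    · rw [hD]
      simp only [Pi.add_apply, Pi.smul_apply, smul_eq_mul]
      ring

variable [Algebra.EssFiniteType ℂ K]

/-- The principal part of `Dn`. -/
theorem Dn_eq {d : Dat K} (s : Sq d) (k : ℕ) (hk : 1 ≤ k) : ∃ P ∈ Prin K,
    Dn s k = (-(kap ^ k)) • Lk s k + (kap ^ (k - 1) * (1 - kap)) • Lk s (k + 1) +
      kap ^ (k - 1) • Lk s (k + 2) + P := by
  refine ⟨pr d + (bet s - kap ^ (k - 1) • ((-kap) • Th s k + (1 - kap) • Th s (k + 1) +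
    Th s (k + 2))), (Prin K).add_mem (pr_mem d) (Pool.Agent.TH921.FL_GK.bet_shift s k hk), ?_⟩
  obtain ⟨j, rfl⟩ : ∃ j, k = j + 1 := ⟨k - 1, by omega⟩
  funext v
  simp only [Dn, Pi.sub_apply, Pi.add_apply, Pi.smul_apply, smul_eq_mul, Nat.add_sub_cancel,
    pow_succ]
  ring

theorem small_left {d : Dat K} (h : XiAlg d) (s : Sq d) (hfil : FilV s)
    (hy : ∀ j, s.y j ∈ Fc d) (k : ℕ) (hk : 1 ≤ k) :
    IsSmall (M3 s k hk) (M2 s (k + 1) (by omega)) := by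
  obtain ⟨f0, f1, f2, fc⟩ := free_three s k hk
  obtain ⟨g1, g2, gc⟩ := free_two s (k + 1) (by omega)
  refine ⟨Pool.Agent.TH111.FL_PM.mor_of_free ?_, (Pool.Agent.TH921.FL_NI.noniso s hfil hy k hk).1, fun w hw => ?_⟩
  · change IsFree (M3 s k hk) (sys2 s (k + 1))
    exact (Pool.Agent.TH111.FL_PM.free_pm (pm_ne (e3_ne s _) (e3_ne s _)) (e2_ne d)).2
      ⟨(Pool.Agent.TH111.FL_PM.free_pm (e3_ne s _) (e3_ne s _)).2 ⟨f1, f2⟩, fc⟩
  · obtain ⟨h1, h2⟩ := Pool.Agent.TH89.FL_SMT.small_three h s hfil k hk w hw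
    exact Pool.Agent.TH828.FL_SMF.small_from h s hfil (k + 1) (by omega) g1 g2 gc w h1 h2

theorem small_right {d : Dat K} (h : XiAlg d) (s : Sq d) (hfil : FilV s)
    (hy : ∀ j, s.y j ∈ Fc d) (k : ℕ) (hk : 1 ≤ k) :
    IsSmall (M3 s k hk) (M2 s k hk) := by
  obtain ⟨f0, f1, f2, fc⟩ := free_three s k hk
  obtain ⟨g1, g2, gc⟩ := free_two s k hk
  refine ⟨Pool.Agent.TH111.FL_PM.mor_of_free ?_, (Pool.Agent.TH921.FL_NI.noniso s hfil hy k hk).2, fun w hw => ?_⟩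
  · change IsFree (M3 s k hk) (sys2 s k)
    exact (Pool.Agent.TH111.FL_PM.free_pm (pm_ne (e3_ne s _) (e3_ne s _)) (e2_ne d)).2
      ⟨(Pool.Agent.TH111.FL_PM.free_pm (e3_ne s _) (e3_ne s _)).2 ⟨f0, f1⟩, fc⟩
  · obtain ⟨h1, h2⟩ := Pool.Agent.TH89.FL_SMT.small_three h s hfil k hk w hw
    exact Pool.Agent.TH828.FL_SMF.small_from h s hfil k hk g1 g2 gc w h1 h2

theorem ample_left {d : Dat K} (s : Sq d) (k : ℕ) (hk : 1 ≤ k) :
    IsAmpleOver (M3 s k hk) (M2 s (k + 1) (by omega)) (-Dn s k) := by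
  obtain ⟨P, hP, hD⟩ := Dn_eq s k hk
  have hk0 : 0 < kap ^ k := pow_pos kap_pos k
  have hk1 : kap ^ (k - 1) ≤ 1 := pow_le_one₀ kap_pos.le kap_lt_one.le
  have hk2 : 0 < kap ^ (k - 1) := pow_pos kap_pos _
  have hkk : kap ^ k = kap ^ (k - 1) * kap := by
    rw [← pow_succ]
    congr 1
    omega
  refine ⟨kap ^ k + 1, kap ^ k, hk0, ?_⟩
  refine nef_of_comb s k hk (P := -P) ((Prin K).neg_mem hP) (a0 := 0)
    (a1 := 1 - kap ^ (k - 1) + kap ^ k) (a2 := 1 - kap ^ (k - 1)) (a3 := 1) le_rfl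
    (by linarith) (by linarith) zero_le_one ?_
  funext v
  rw [hD]
  simp only [Pi.sub_apply, Pi.add_apply, Pi.smul_apply, Pi.neg_apply, smul_eq_mul, H_two, H_three,
    hkk]
  ring

theorem ample_right {d : Dat K} (s : Sq d) (k : ℕ) (hk : 1 ≤ k) :
    IsAmpleOver (M3 s k hk) (M2 s k hk) (Dn s k) := by
  obtain ⟨P, hP, hD⟩ := Dn_eq s k hk
  have hk0 : 0 < kap ^ k := pow_pos kap_pos k
  have hk1 : kap ^ k ≤ 1 := pow_le_one₀ kap_pos.le kap_lt_one.le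
  have hk2 : 0 < kap ^ (k - 1) := pow_pos kap_pos _
  have hkk : kap ^ k = kap ^ (k - 1) * kap := by
    rw [← pow_succ]
    congr 1
    omega
  refine ⟨kap ^ (k - 1) + 1, kap ^ (k - 1), hk2, ?_⟩
  refine nef_of_comb s k hk (P := P) hP (a0 := 1 - kap ^ k)
    (a1 := 1 + kap ^ (k - 1) * (1 - kap)) (a2 := 0) (a3 := 1) (by linarith)
    (by nlinarith [kap_lt_one]) le_rfl zero_le_one ?_
  funext v
  rw [hD]
  simp only [Pi.sub_apply, Pi.add_apply, Pi.smul_apply, Pi.neg_apply, smul_eq_mul, H_two, H_three,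
    hkk]
  ring

theorem rho_left {d : Dat K} (h : XiAlg d) (s : Sq d) (hfil : FilV s)
    (hgen : ∀ k, 1 ≤ k → GenAt s k) (hy : ∀ j, s.y j ∈ Fc d) (k : ℕ) (hk : 1 ≤ k) :
    IsRho (M3 s k hk) (M2 s (k + 1) (by omega)) (Dn s k) := by
  intro C hC hfin
  obtain ⟨g1, g2, gc⟩ := free_two s (k + 1) (by omega)
  obtain ⟨a0, a1, a2, g, hQ⟩ := pic h s hfil hgen hy k hk C hC hfin
  obtain ⟨P, hP, hD⟩ := Dn_eq s k hk
  have hk0 : kap ^ k ≠ 0 := (pow_pos kap_pos k).ne'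
  refine ⟨-(a0 / kap ^ k), ?_⟩
  have e : C - (-(a0 / kap ^ k)) • Dn s k =
      (a1 + a0 / kap ^ k * (kap ^ (k - 1) * (1 - kap))) • Lk s (k + 1) +
      (a2 + a0 / kap ^ k * kap ^ (k - 1)) • Lk s (k + 2) + g • Lin (e2 d) +
      ((C - (a0 • Lk s k + a1 • Lk s (k + 1) + a2 • Lk s (k + 2) + g • Lin (e2 d))) +
        (a0 / kap ^ k) • P) := by
    funext v
    rw [hD]
    simp only [Pi.sub_apply, Pi.add_apply, Pi.smul_apply, smul_eq_mul]
    field_simp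
    ring
  rw [e]
  exact ((((free_rcar g1).smul _).add ((free_rcar g2).smul _)).add ((free_rcar gc).smul _)).add
    (rcar_of_prin ((Prin K).add_mem hQ ((Prin K).smul_mem _ hP)))

theorem rho_right {d : Dat K} (h : XiAlg d) (s : Sq d) (hfil : FilV s)
    (hgen : ∀ k, 1 ≤ k → GenAt s k) (hy : ∀ j, s.y j ∈ Fc d) (k : ℕ) (hk : 1 ≤ k) :
    IsRho (M3 s k hk) (M2 s k hk) (Dn s k) := by
  intro C hC hfin
  obtain ⟨g1, g2, gc⟩ := free_two s k hk
  obtain ⟨a0, a1, a2, g, hQ⟩ := pic h s hfil hgen hy k hk C hC hfin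
  obtain ⟨P, hP, hD⟩ := Dn_eq s k hk
  have hk0 : kap ^ (k - 1) ≠ 0 := (pow_pos kap_pos _).ne'
  refine ⟨a2 / kap ^ (k - 1), ?_⟩
  have e : C - (a2 / kap ^ (k - 1)) • Dn s k =
      (a0 + a2 / kap ^ (k - 1) * kap ^ k) • Lk s k +
      (a1 - a2 / kap ^ (k - 1) * (kap ^ (k - 1) * (1 - kap))) • Lk s (k + 1) + g • Lin (e2 d) +
      ((C - (a0 • Lk s k + a1 • Lk s (k + 1) + a2 • Lk s (k + 2) + g • Lin (e2 d))) -
        (a2 / kap ^ (k - 1)) • P) := by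
    funext v
    rw [hD]
    simp only [Pi.sub_apply, Pi.add_apply, Pi.smul_apply, smul_eq_mul]
    field_simp
    ring
  rw [e]
  exact ((((free_rcar g1).smul _).add ((free_rcar g2).smul _)).add ((free_rcar gc).smul _)).add
    (rcar_of_prin ((Prin K).sub_mem hQ ((Prin K).smul_mem _ hP)))

/-- Every step of the sequence is a flip. -/
theorem is_flip {d : Dat K} (h : XiAlg d) (s : Sq d) (hfil : FilV s)
    (hgen : ∀ k, 1 ≤ k → GenAt s k) (hy : ∀ j, s.y j ∈ Fc d) (k : ℕ) (hk : 1 ≤ k) :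
    IsFlip (M3 s k hk) (M3 s (k + 1) (by omega)) (Dn s k) (Dn s (k + 1)) :=
  ⟨M2 s (k + 1) (by omega), small_left h s hfil hy k hk,
    small_right h s hfil hy (k + 1) (by omega), ample_left s k hk, ample_right s (k + 1) (by omega),
    rho_left h s hfil hgen hy k hk, rho_right h s hfil hgen hy (k + 1) (by omega)⟩

end Pool.Agent.TH202
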