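import Mathlib
import Pool.Agent.TH202.FlRes
import Pool.Agent.TH755.C8_SEQ
import Pool.Agent.TH698.FL_FILV
import Pool.Agent.TH286.FL_GEN

/-!
# The sequence of points with its additional properties
-/

set_option autoImplicit false

namespace Pool.Agent.TH202

open Pool.Agent.H436R3.Fol MvPolynomial

theorem exists_sq2 {K : Type} [Field K] [Algebra ℂ K] (d : Dat K) :
    ∃ s : Sq d, FilV s ∧ (∀ k, 1 ≤ k → GenAt s k) ∧ ∀ j, s.y j ∈ Fc d := by
  open Pool.Agent.TH755.C8_SEQ in
  refine ⟨{ y := fun k => (sq d k).2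
            D := Dk d
            y_ne := y_ne_all d
            D_ne := Dk_ne d
            y1 := by rw [sq_one]
            y2 := by rw [sq_two]
            par := par d
            fil := fil d
            ind := fun k hk => ?_
            alg := fun k hk f => ?_
            triv := triv d
            pair := pair d }, ?_, ?_, ?_⟩
  · obtain ⟨j, rfl⟩ : ∃ j, k = j + 1 := ⟨k - 1, by omega⟩
    exact (Pool.Agent.TH755.C8_SEQ.good d j).ind
  · obtain ⟨j, rfl⟩ : ∃ j, k = j + 1 := ⟨k - 1, by omega⟩
    exact (Pool.Agent.TH755.C8_SEQ.good d j).alg f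
  · intro V hV e he0 he he' k hk
    exact Pool.Agent.TH698.FL_FILV.filV_sq d V hV e he0 he he' k hk
  · intro k hk
    exact Pool.Agent.TH286.FL_GEN.gen_sq d k hk
  · intro j
    exact Pool.Agent.TH286.FL_GEN.y_mem d j

end Pool.Agent.TH202
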